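import Pool.Agent.W2helper41.N.Num
import Pool.Agent.W2helper41.L.Lay

/-!
# The rank part of the Birch and Swinnerton-Dyer conjecture over the layers of the cyclotomic
# `ℤ₃`-extension for the quadratic twists of `X_0(14)` by all the products of inert primes

`E_D` is the quadratic twist by `D` of the modular curve `X_0(14)`; the curves have no complex
multiplication.  A prime is inert if it is `5` modulo `8` and not a square modulo `7`, and split if it
is `1` modulo `8` and a square modulo `7`.  Let `D` be a product of distinct inert and split primes.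

* If `D` has no split prime factor, then `L(E_D/K, s)` is entire, does not vanish at `s = 1`, `E_D(K)`
  has rank zero and `Ш(E_D/K)` has no element of order two, for `K = ℚ` and for EVERY layer `K` of the
  cyclotomic `ℤ₃`-extension of `ℚ`; in general for every subfield `K` of odd degree of the field of the
  `q`-th roots of unity, `q` a power of a prime not dividing `14 D`, if `q` is a power of three or if
  `2` and `7` are inert in `K` and the narrow class number of `K` is odd.  The prime factors of `D` may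
  decompose in `K` in any way.  (In the earlier results they had to be inert in `K`.)
* If `D` has one or two split prime factors, and these are inert in `K`, for example `2`, `4`, `5` or
  `7` modulo `9` in the case of the layers, then the same is true for all these `K` if and only if it is
  true for `K = ℚ`, if and only if `E_D(ℚ)` has rank zero and `Ш(E_D/ℚ)` has no element of order two.
* This is so for half of the `D` with one or with two split prime factors from a set `S` and any number
  of inert prime factors from `S`.  `S` can be the set of ALL the inert primes and of the split primes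
  that are `2`, `4`, `5` or `7` modulo `9`; the number of these `D` up to `X` has the order of magnitude
  `X (log X)^(-7/8) (log log X)^k`, `k` the number of the split prime factors.

The proof.  Let `χ` be a character of `Gal(K/ℚ)`, not trivial, and `t` the number of the inert primes
that divide `D` at which `χ` is trivial.  The twisted sum of the modular symbols that gives
`L(E_D, χ, 1)` is `2^t` times a number that is a unit at all the places above two.  This is proved by
induction on `t` with the Hecke relations at these primes; what is needed is that the sums of the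
symbols over the classes of the residue symbols modulo these primes, weighted by `χ`, vanish modulo two.
By the formula of the library for the symbols modulo two these are products of two sums of signs, the
sums of the signs over the classes agree, and the sum over all the classes vanishes.  On the algebraic
side the places of odd degree above the inert primes impose no condition in the descent.
-/

set_option autoImplicit false

open NumberField IsDedekindDomain WeierstrassCurve Filter Topology Finset

namespace Pool.Agent.Results.MP_32c55d_nt.AllInertTwistsOverLayers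

open scoped Classical

open Pool.Agent.TH841.NF.D (Sha)

open Pool.Agent.Y682 (NCl)

/-- The quadratic twist `E_D` of `X_0(14)` (`D = 1` modulo `4`), with its global minimal equation
`y² + x y + y = x³ + ((D - 1)/4) x² + ((9 D² - 1)/2) x - (23 D³ + 1)/4`.  It is isomorphic to
`Y² = X (X² + 13 D X + 128 D²)` by `X = 4 (x - D)`, `Y = 4 (2 y + x + 1)`. -/
def twist (D : ℤ) : WeierstrassCurve ℤ :=
  ⟨1, (D - 1) / 4, 1, (9 * D ^ 2 - 1) / 2, -((23 * D ^ 3 + 1) / 4)⟩

/-- The curve given by the equation of `W` over the ring `R`. -/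
abbrev base (W : WeierstrassCurve ℤ) (R : Type) [CommRing R] : WeierstrassCurve R :=
  W.map (Int.castRingHom R)

/-- The number of the affine points `(x, y)` over the ring `R`. -/
noncomputable def pts (W : WeierstrassCurve ℤ) (R : Type) [CommRing R] : ℕ :=
  Nat.card {P : R × R // (base W R).toAffine.Equation P.1 P.2}

section

variable {K : Type} [Field K] [NumberField K]

/-- `a_v = N v + 1 - #W(k_v)`, the points over the residue field `k_v` counted with the point at
infinity. -/
noncomputable def a (W : WeierstrassCurve ℤ) (v : HeightOneSpectrum (𝓞 K)) : ℤ :=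
  (Ideal.absNorm v.asIdeal : ℤ) - pts W (𝓞 K ⧸ v.asIdeal)

/-- The Euler factor of `L(W/K, s)` at `v` : `(1 - a_v N v^(-s) + N v^(1 - 2 s))⁻¹` if the
discriminant is a unit at `v`, and `(1 - a_v N v^(-s))⁻¹` otherwise. -/
noncomputable def factor (W : WeierstrassCurve ℤ) (s : ℂ) (v : HeightOneSpectrum (𝓞 K)) : ℂ :=
  (1 - (a W v : ℂ) * (Ideal.absNorm v.asIdeal : ℂ) ^ (-s) +
    if ((W.Δ : ℤ) : 𝓞 K) ∈ v.asIdeal then 0 else (Ideal.absNorm v.asIdeal : ℂ) ^ (1 - 2 * s))⁻¹

/-- The equation is minimal at the finite place `v` of `K`: no change of variables over `K` that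
keeps the coefficients integral at `v` decreases the valuation of the discriminant. -/
def MinimalAt (W : WeierstrassCurve ℤ) (v : HeightOneSpectrum (𝓞 K)) : Prop :=
  ∀ C : VariableChange K, v.valuation K (C • base W K).a₁ ≤ 1 →
    v.valuation K (C • base W K).a₂ ≤ 1 → v.valuation K (C • base W K).a₃ ≤ 1 →
    v.valuation K (C • base W K).a₄ ≤ 1 → v.valuation K (C • base W K).a₆ ≤ 1 →
    v.valuation K (C • base W K).Δ ≤ v.valuation K (base W K).Δ

end

section

variable (K : Type) [Field K] [NumberField K]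

/-- The rank of the group of the points over `K`. -/
noncomputable def rank (W : WeierstrassCurve ℤ) : ℕ := Module.finrank ℤ (base W K).toAffine.Point

/-- The rank is zero and the Tate-Shafarevich group over `K` has no element of order two. -/
def RankShaTrivial (W : WeierstrassCurve ℤ) : Prop :=
  rank K W = 0 ∧ ∀ x : Sha (base W K), 2 • x = 0 → x = 0

/-- The equation is minimal over `K`, there is an entire function equal to `L(W/K, s)` for
`Re s > 3 / 2`, and its value at `1` is not zero. -/
def AnalyticRankZero (W : WeierstrassCurve ℤ) : Prop :=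
  (∀ v : HeightOneSpectrum (𝓞 K), MinimalAt W v) ∧
  ∃ L : ℂ → ℂ, Differentiable ℂ L ∧
    (∀ s : ℂ, 3 / 2 < s.re → HasProd (factor (K := K) W s) (L s)) ∧ L 1 ≠ 0

/-- `n` generates a prime ideal of the ring of integers of `K`. -/
def InertIn (n : ℕ) : Prop := (Ideal.span {((n : ℕ) : 𝓞 K)}).IsPrime

end

/-- The inert primes. -/
def Inert (q : ℕ) : Prop := q.Prime ∧ q % 8 = 5 ∧ (q % 7 = 3 ∨ q % 7 = 5 ∨ q % 7 = 6)

/-- The split primes. -/
def Split (p : ℕ) : Prop := p.Prime ∧ p % 8 = 1 ∧ (p % 7 = 1 ∨ p % 7 = 2 ∨ p % 7 = 4)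

/-- The field `K`, contained in the field `M` of the `q`-th roots of unity, is allowed for the twist by
`D`: `q` is a power of a prime not dividing `14`, the degree of `K` is odd, either `3` divides `q` or
`2` and `7` are inert in `K` and the narrow class number of `K` is odd, the prime factors of `D` do
not divide `q`, and the SPLIT prime factors of `D` are inert in `K` (no condition on the decomposition
in `K` of the inert prime factors of `D`). -/
def Allowed (D q : ℕ) {M : Type} [Field M] [NumberField M] (K : IntermediateField ℚ M) : Prop :=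
  IsPrimePow q ∧ q.Coprime 14 ∧ IsCyclotomicExtension {q} ℚ M ∧ Odd (Module.finrank ℚ K) ∧
    (3 ∣ q ∨ (InertIn K 2 ∧ InertIn K 7 ∧ Odd (Nat.card (NCl K)))) ∧
    ∀ p : ℕ, p.Prime → p ∣ D → ¬ p ∣ q ∧ (Split p → InertIn K p)

/-- Over `ℚ` and over all the fields allowed for `D` the `L`-function of `E_D` is entire and does not
vanish at `1`, the rank is zero, and the Tate-Shafarevich group has no element of order two. -/
def Good (D : ℕ) : Prop :=
  (AnalyticRankZero ℚ (twist D) ∧ RankShaTrivial ℚ (twist D)) ∧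
  ∀ (q : ℕ) (M : Type) [Field M] [NumberField M] (K : IntermediateField ℚ M), Allowed D q K →
    AnalyticRankZero K (twist D) ∧ RankShaTrivial K (twist D)

/-- `D` is squarefree, all its prime factors are in `S` and split or inert, and exactly `k` of them are
split. -/
def Family (S : Set ℕ) (k D : ℕ) : Prop :=
  Squarefree D ∧ (∀ p : ℕ, p.Prime → p ∣ D → p ∈ S ∧ (Split p ∨ Inert p)) ∧
    (D.primeFactors.filter fun p => p % 8 = 1).card = k

/-- at least a positive proportion of the primes up to `Y` is in `S` and of the kind `Q`, for all large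
`Y` -/
def Dense (S : Set ℕ) (Q : ℕ → Prop) : Prop := ∃ (δ : ℝ) (Y₀ : ℕ), 0 < δ ∧ ∀ Y : ℕ, Y₀ ≤ Y →
  δ * (Y / Real.log Y) ≤ (Nat.card {p : ℕ // p ≤ Y ∧ p ∈ S ∧ Q p} : ℝ)

/-- `S` has positive lower densities among the split and among the inert primes, and the sum of the
inverses of the inert primes of `S` up to `y` is `δ log log y` up to a bounded error. -/
def Regular (S : Set ℕ) (δ : ℝ) : Prop :=
  0 < δ ∧ δ ≤ 1 ∧ Dense S Split ∧ Dense S Inert ∧ ∃ C : ℝ, ∀ y : ℕ, 3 ≤ y →
    |∑ p ∈ (range (y + 1)).filter (fun p => p ∈ S ∧ Inert p), (1 : ℝ) / p -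
      δ * Real.log (Real.log y)| ≤ C

/-- the number of the `D` with `1 ≤ D ≤ X` and `Q D` -/
noncomputable def count (Q : ℕ → Prop) (X : ℕ) : ℕ := Nat.card {D : ℕ // 1 ≤ D ∧ D ≤ X ∧ Q D}

open Pool.Agent.W2helper41.N (FamN Rg IA SA cf)

lemma count_eq (Q : ℕ → Prop) [DecidablePred Q] (X : ℕ) : count Q X = ((Icc 1 X).filter Q).card := by
  unfold count
  rw [← Fintype.card_coe, ← Nat.card_eq_fintype_card]
  refine Nat.card_congr (Equiv.subtypeEquivRight fun p => ?_)
  rw [Finset.mem_filter, Finset.mem_Icc, and_assoc]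

lemma card_le (S : Set ℕ) (Q : ℕ → Prop) {R : ℕ → Prop} (h : ∀ p, (p ∈ S ∧ Q p) ↔ R p) (Y : ℕ) :
    Nat.card {p : ℕ // p ≤ Y ∧ p ∈ S ∧ Q p} = ((range (Y + 1)).filter R).card := by
  rw [← Fintype.card_coe, ← Nat.card_eq_fintype_card]
  refine Nat.card_congr (Equiv.subtypeEquivRight fun p => ?_)
  rw [Finset.mem_filter, Finset.mem_range, Nat.lt_succ_iff, h]

open Pool.Agent.V11291.FK (Dn) in
lemma dense_iff (S : Set ℕ) (Q : ℕ → Prop) {R : ℕ → Prop} (h : ∀ p, (p ∈ S ∧ Q p) ↔ R p) :
    Dense S Q ↔ Dn R := by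
  unfold Dense Dn
  refine exists_congr fun δ => exists_congr fun Y₀ => and_congr_right fun _ =>
    forall_congr' fun Y => imp_congr_right fun _ => ?_
  rw [card_le S Q h Y]

lemma reg_iff (S : Set ℕ) (δ : ℝ) : Regular S δ ↔ Rg (fun p => p ∈ S) δ := by
  have h1 : Dense S Split ↔ Pool.Agent.V11291.FK.Dn (SA fun p => p ∈ S) :=
    dense_iff S Split fun p => Iff.rfl
  have h2 : Dense S Inert ↔ Pool.Agent.V11291.FK.Dn (IA fun p => p ∈ S) :=
    dense_iff S Inert fun p => Iff.rfl
  have h3 : ∀ y : ℕ, ∑ p ∈ (range (y + 1)).filter (fun p => p ∈ S ∧ Inert p), (1 : ℝ) / p =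
      ∑ p ∈ (range (y + 1)).filter (fun p => p.Prime ∧ IA (fun p => p ∈ S) p), (1 : ℝ) / p := by
    intro y
    refine Finset.sum_congr ?_ fun _ _ => rfl
    refine Finset.filter_congr fun p _ => ?_
    exact ⟨fun h => ⟨h.2.1, h⟩, fun h => h.2⟩
  constructor
  · rintro ⟨a1, a2, a3, a4, C, a5⟩
    exact ⟨a1, a2, h1.1 a3, h2.1 a4, C, fun y hy => by rw [← h3]; exact a5 y hy⟩
  · rintro ⟨a1, a2, a3, a4, C, a5⟩
    exact ⟨a1, a2, h1.2 a3, h2.2 a4, C, fun y hy => by rw [h3]; exact a5 y hy⟩

lemma fam_iff (S : Set ℕ) (k D : ℕ) : Family S k D ↔ FamN (fun p => p ∈ S) k D := by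
  unfold Family FamN
  constructor
  · rintro ⟨h1, h2, h3⟩
    exact ⟨h1, fun p hp => h2 p (Nat.prime_of_mem_primeFactors hp)
      (Nat.dvd_of_mem_primeFactors hp), h3⟩
  · rintro ⟨h1, h2, h3⟩
    exact ⟨h1, fun p hp hd => h2 p (Nat.mem_primeFactors.2 ⟨hp, hd, h1.ne_zero⟩), h3⟩

lemma crit {T P : Finset ℕ} (hT : ∀ q ∈ T, Inert q) (hP : ∀ p ∈ P, Split p) :
    RankShaTrivial ℚ (twist (((∏ q ∈ T, q) * ∏ p ∈ P, p : ℕ) : ℤ)) ↔
      (Pool.Agent.W2helper41.X.mat P (∏ q ∈ T, q)).det ≠ 0 :=
  (Pool.Agent.W2helper41.X.crit hP hT).symm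

lemma good_of {T P : Finset ℕ} (hT : ∀ q ∈ T, Inert q) (hP : ∀ p ∈ P, Split p) (hc : P.card ≤ 2)
    (hdet : (Pool.Agent.W2helper41.X.mat P (∏ q ∈ T, q)).det ≠ 0) :
    Good ((∏ q ∈ T, q) * ∏ p ∈ P, p) := by
  refine ⟨⟨?_, (crit hT hP).2 hdet⟩, ?_⟩
  · obtain ⟨a1, -, a3, a4, -, L₁, x₁, b1, b2, b3, -, b5⟩ :=
      Pool.Agent.W2helper41.X.main Pool.Agent.W2helper41.X.parts hP hT hc
    refine ⟨a1, L₁, b1, b2, fun h0 => ?_⟩
    rw [h0, zero_mul] at b3
    have h1 : (x₁ : ℂ) ≠ 0 := Rat.cast_ne_zero.2 (b5.2 hdet).1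
    exact mul_ne_zero (mul_ne_zero h1 (Complex.ofReal_ne_zero.2 a3.ne'))
      (Nat.cast_ne_zero.2 a4.ne') b3.symm
  · intro q M _ _ K hK
    obtain ⟨hq, hco, hcyc, hodd, hcl, hD⟩ := hK
    have : NeZero q := ⟨hq.ne_zero⟩
    obtain ⟨h1, h2, h3, h4⟩ :=
      Pool.Agent.W2helper41.L.layT hP hT hc hdet q hq hco M K hodd hcl (by
        intro p hp hpD
        obtain ⟨h5, h6⟩ := hD p hp hpD
        refine ⟨h5, ?_⟩
        rcases Pool.Agent.W2helper41.X.D_div hP hT hp hpD with h | h
        · exact Or.inl (hT p h)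
        · exact Or.inr (h6 (hP p h)))
    exact ⟨⟨h1, h2⟩, h3, h4⟩

/-- the families and the sets of primes -/
lemma fam_prod {S : Set ℕ} {k D : ℕ} (hD : Family S k D) :
    (∀ q ∈ Pool.Agent.W2helper41.Z.ins D, Inert q) ∧
    (∀ p ∈ Pool.Agent.W2helper41.Z.sps D, Split p) ∧
    D = (∏ q ∈ Pool.Agent.W2helper41.Z.ins D, q) * ∏ p ∈ Pool.Agent.W2helper41.Z.sps D, p ∧
    (Pool.Agent.W2helper41.Z.sps D).card = k := by
  have hk' := hD.2.2
  rw [fam_iff, Pool.Agent.W2helper41.N.famN_iff] at hD
  exact ⟨Pool.Agent.W2helper41.Z.ins_ine hD, Pool.Agent.W2helper41.Z.sps_spl hD,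
    Pool.Agent.W2helper41.Z.prod_eq hD, hk'⟩

/-- a set with the split primes of one and the inert primes of another regular set -/
lemma regular_mix {S S₁ S₂ : Set ℕ} {δ₁ δ : ℝ} (h1 : Regular S₁ δ₁) (h2 : Regular S₂ δ)
    (e1 : ∀ p, Split p → (p ∈ S ↔ p ∈ S₁)) (e2 : ∀ p, Inert p → (p ∈ S ↔ p ∈ S₂)) :
    Regular S δ := by
  have eS : ∀ p : ℕ, (p ∈ S ∧ Split p) ↔ (p ∈ S₁ ∧ Split p) := fun p =>
    and_congr_left fun hp => e1 p hp
  have eI : ∀ p : ℕ, (p ∈ S ∧ Inert p) ↔ (p ∈ S₂ ∧ Inert p) := fun p =>
    and_congr_left fun hp => e2 p hp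
  obtain ⟨-, -, a3, -, -⟩ := h1
  obtain ⟨b1, b2, -, b4, C, b5⟩ := h2
  refine ⟨b1, b2, ?_, ?_, C, fun y hy => ?_⟩
  · rw [dense_iff _ _ (R := fun p => p ∈ S₁ ∧ Split p) eS]
    exact (dense_iff _ _ (R := fun p => p ∈ S₁ ∧ Split p) fun p => Iff.rfl).1 a3
  · rw [dense_iff _ _ (R := fun p => p ∈ S₂ ∧ Inert p) eI]
    exact (dense_iff _ _ (R := fun p => p ∈ S₂ ∧ Inert p) fun p => Iff.rfl).1 b4
  · have h3 : (range (y + 1)).filter (fun p => p ∈ S ∧ Inert p) =
        (range (y + 1)).filter (fun p => p ∈ S₂ ∧ Inert p) :=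
      Finset.filter_congr fun p _ => eI p
    rw [h3]
    exact b5 y hy

/-- **Main theorem.**

(1) Let `D` be a squarefree number all of whose prime factors are inert or split, `k` of them split.  If
`k = 0`, then `D` is good.  If `k ≤ 2`, then `D` is good if and only if `E_D(ℚ)` has rank zero and
`Ш(E_D/ℚ)` has no element of order two.

(2) Let `S` be a regular set of primes with the density `δ` of the inert primes.  The number of the
elements up to `X` of the family of `S, k` is between two positive constants times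
`X (log X)^(δ - 1) (log log X)^k`.  The proportion of the good `D` tends to `1/2` for `k = 1` and
`k = 2`.

(3) Let `R` be a nonempty set of reduced residue classes modulo a number `N` prime to `14`.  The set of
the primes that are inert or in `R` modulo `N` is regular with the density `1/8`.

(4) Let `K` be a subfield of odd degree of the field of the `3^(n + 1)`-th roots of unity.  If all the
split prime factors of the product `D` of inert and split primes are `2`, `4`, `5` or `7` modulo `9`,
then `K` is allowed for `D`. -/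
theorem result :
    (∀ k D : ℕ, Family Set.univ k D → (k = 0 → Good D) ∧
      (k ≤ 2 → (Good D ↔ RankShaTrivial ℚ (twist D)))) ∧
    (∀ (S : Set ℕ) (δ : ℝ), Regular S δ → ∀ k : ℕ,
      (∃ (c C : ℝ) (X₀ : ℕ), 0 < c ∧ 0 < C ∧ ∀ X : ℕ, X₀ ≤ X →
        c * (X * Real.log X ^ (δ - 1) * Real.log (Real.log X) ^ k) ≤
          (count (Family S k) X : ℝ) ∧
        (count (Family S k) X : ℝ) ≤
          C * (X * Real.log X ^ (δ - 1) * Real.log (Real.log X) ^ k)) ∧
      (k = 1 ∨ k = 2 → Tendsto (fun X : ℕ =>
        (count (fun D => Family S k D ∧ Good D) X : ℝ) / (count (Family S k) X : ℝ)) atTop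
        (𝓝 (1 / 2)))) ∧
    (∀ N : ℕ, N.Coprime 14 → ∀ R : Finset ℕ, R.Nonempty → (∀ a ∈ R, a < N ∧ a.Coprime N) →
      Regular {p | Inert p ∨ p % N ∈ R} (1 / 8)) ∧
    ∀ (n : ℕ) (M : Type) [Field M] [NumberField M] [IsCyclotomicExtension {3 ^ (n + 1)} ℚ M]
      (K : IntermediateField ℚ M), Odd (Module.finrank ℚ K) → ∀ k D : ℕ, Family Set.univ k D →
      (∀ p : ℕ, Split p → p ∣ D → p % 9 = 2 ∨ p % 9 = 4 ∨ p % 9 = 5 ∨ p % 9 = 7) →
      Allowed D (3 ^ (n + 1)) K := by
  refine ⟨?_, ?_, ?_, ?_⟩
  · intro k D hD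
    obtain ⟨hT, hP, e, hk⟩ := fam_prod hD
    have key : k ≤ 2 → ((Pool.Agent.W2helper41.X.mat (Pool.Agent.W2helper41.Z.sps D)
        (∏ q ∈ Pool.Agent.W2helper41.Z.ins D, q)).det ≠ 0 → Good D) := by
      intro hk2 hdet
      have h3 := good_of hT hP (by rw [hk]; exact hk2) hdet
      rw [← e] at h3
      exact h3
    have hcr := crit hT hP
    rw [← e] at hcr
    refine ⟨fun hk0 => key (by omega) ?_, fun hk2 => ⟨fun h => h.1.2, fun h => key hk2 (hcr.1 h)⟩⟩
    have h0 : Pool.Agent.W2helper41.Z.sps D = ∅ := by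
      rw [← card_eq_zero, hk, hk0]
    rw [h0, Matrix.det_isEmpty]
    exact one_ne_zero
  · intro S δ hS k
    rw [reg_iff] at hS
    have e1 : ∀ X : ℕ, count (Family S k) X =
        ((Icc 1 X).filter fun D => FamN (fun p => p ∈ S) k D).card := by
      intro X
      rw [count_eq]
      exact cf fun D _ => fam_iff S k D
    refine ⟨?_, fun hk => ?_⟩
    · obtain ⟨c, C, X₀, hc, hC, h⟩ := Pool.Agent.W2helper41.N.sizeN hS k
      refine ⟨c, C, X₀, hc, hC, fun X hX => ?_⟩
      rw [e1]
      exact h X hX
    · have hk0 : 0 < k := by omega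
      have hk2 : k ≤ 2 := by omega
      have key : ∀ D : ℕ, Family S k D → (Good D ↔ (Pool.Agent.W2helper41.X.mat
          (Pool.Agent.W2helper41.Z.sps D) (∏ q ∈ Pool.Agent.W2helper41.Z.ins D, q)).det ≠ 0) := by
        intro D hD
        obtain ⟨hT, hP, e, hk⟩ := fam_prod hD
        have e2 := crit hT hP
        rw [← e] at e2
        refine ⟨fun h => e2.1 h.1.2, fun h => ?_⟩
        have e3 := good_of hT hP (by rw [hk]; exact hk2) h
        rw [← e] at e3
        exact e3
      have hlaw := Pool.Agent.W2helper41.N.lawN hS hk0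
      have hlim : ∏ i ∈ range ((k + 1) / 2), (1 - (1 / 2 : ℝ) ^ (2 * i + 1)) = 1 / 2 := by
        have h2 : (k + 1) / 2 = 1 := by omega
        rw [h2, Finset.prod_range_one]
        norm_num
      rw [hlim] at hlaw
      refine hlaw.congr fun X => ?_
      rw [e1, count_eq]
      refine congrArg (fun n : ℕ => (n : ℝ) / _) (cf fun D _ => ?_)
      rw [← fam_iff]
      exact and_congr_right fun hF => (key D hF).symm
  · intro N hN R hR hRN
    have h1 : Regular {p | p % N ∈ R} (R.card / (8 * N.totient)) := by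
      rw [reg_iff]
      exact Pool.Agent.W2helper41.N.rg_class hN hR hRN
    have h2 : Regular {p | p % 1 ∈ ({0} : Finset ℕ)} (({0} : Finset ℕ).card /
        (8 * Nat.totient 1)) := by
      rw [reg_iff]
      exact Pool.Agent.W2helper41.N.rg_class (Nat.coprime_one_left 14) (singleton_nonempty 0)
        (by
          intro a ha
          rw [mem_singleton] at ha
          rw [ha]
          exact ⟨one_pos, Nat.coprime_one_right 0⟩)
    have e8 : ((({0} : Finset ℕ).card : ℝ) / (8 * (Nat.totient 1 : ℝ))) = 1 / 8 := by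
      rw [card_singleton, Nat.totient_one]
      norm_num
    rw [e8] at h2
    refine regular_mix h1 h2 (fun p hp => ⟨fun h => ?_, fun h => Or.inr h⟩)
      (fun p hp => ⟨fun _ => ?_, fun _ => Or.inl hp⟩)
    · rcases h with h | h
      · have h3 := h.2.1
        have h4 := hp.2.1
        omega
      · exact h
    · show p % 1 ∈ ({0} : Finset ℕ)
      rw [Nat.mod_one]
      exact mem_singleton_self 0
  · intro n M _ _ _ K hodd k D hD hsp
    refine ⟨⟨3, n + 1, Nat.prime_three.prime, by omega, rfl⟩, ?_, inferInstance, hodd,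
      Or.inl (dvd_pow_self 3 (by omega)), fun p hp hpD => ⟨?_, fun hs => ?_⟩⟩
    · exact Nat.Coprime.pow_left _ (by norm_num)
    · intro h
      have h4 := (Nat.prime_dvd_prime_iff_eq hp Nat.prime_three).1 (hp.dvd_of_dvd_pow h)
      have h5 := (hD.2.1 p hp hpD).2
      rcases h5 with h5 | h5
      · have := h5.2.1
        omega
      · have := h5.2.1
        omega
    · exact Pool.Agent.Y682.YQ.inert9 n M K hodd hp (hsp p hs hpD)

end Pool.Agent.Results.MP_32c55d_nt.AllInertTwistsOverLayers
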