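import Pool.Agent.W2helper41.B.Ap
import Pool.Agent.W2helper41.Z.Lay

/-!
# The Birch and Swinnerton-Dyer rank conjecture for `X_0(14)` over a fixed proportion of the
# multiquadratic fields in thin families

`E` is the modular curve `X_0(14)`, `E_d` its quadratic twist by `d`; the curves have no complex
multiplication.  A prime is inert if it is `5` modulo `8` and not a square modulo `7`, and split if it
is `1` modulo `8` and a square modulo `7`.  Let `S` be any set of primes with a positive lower density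
both among the inert and among the split primes, `t ≥ 0` and `r₀, …, r_{t+1} ≥ 1`.  The family consists
of the vectors `D = (D₀, …, D_{t+1})` of squarefree, pairwise coprime numbers with all prime factors in
`S`, where `D₀` and `D₁` have exactly one split prime factor each, the other `D_i` none, and `D_i` has
exactly `r_i` inert prime factors.  It is ordered by the product `D₀ ⋯ D_{t+1}`, that is by the
discriminant `(D₀ ⋯ D_{t+1}) ^ (2 ^ (t + 1))` of the multiquadratic field `ℚ(√D₀, …, √D_{t+1})` of degree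
`2 ^ (t + 2)`.

* The number of the vectors with product at most `X` has the order of magnitude
  `X (log log X)^(r₀ + ⋯ + r_{t+1} + 1) / log X`.
* The proportion of the vectors for which, for all the `2 ^ (t + 2)` subproducts `d` of
  `D₀, …, D_{t+1}` simultaneously, `E_d(ℚ)` has rank zero and `Ш(E_d/ℚ)` has no element of order two
  tends to `2 ^ (-(2 t + 3))`; this is `1/8` for the biquadratic fields.
* For exactly these vectors, the `L`-functions of all these `E_d`, of `E` over the multiquadratic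
  field `F₀ = ℚ(√D₀, …, √D_{t+1})` and of `E` over the field `F = F₀ K` are entire and do not vanish at
  `s = 1`, and `E(F₀)` and `E(F)` have rank zero, for all the allowed fields `K`: the subfields of odd
  degree of the field of the `q`-th roots of unity, `q` a power of a prime not dividing `14`, in which
  the prime factors of the `D_i` not dividing `q` are inert, if `q` is a power of three or if `2` and
  `7` are inert in `K` and the narrow class number of `K` is odd.
* If all the prime factors of the `D_i` are `2`, `4`, `5` or `7` modulo `9`, all the layers of the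
  cyclotomic `ℤ₃`-extension of `ℚ` are allowed; these primes can be taken as `S`.

The proof.  For all the subproducts, which have at most two split prime factors, the descent and the
computation of the central values give a matrix of residue symbols.  The matrices are all
nonsingular if and only if the first two diagonal symbols, the sums of the symbols of the two split
primes over the inert prime factors of the `D_i` and the symbol of the two split primes satisfy a
condition, which has `4` solutions in a space of `2 ^ (2 t + 5)` elements for all values of the two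
symbols that do not depend on the residue symbols.  The sums are equidistributed for the arbitrary
set `S` of primes by the quadratic large sieve in boxes (library).
-/

set_option autoImplicit false

open NumberField IsDedekindDomain WeierstrassCurve Filter Topology Finset

namespace Pool.Agent.Results.MP_32c55d_nt.MultiquadraticProportions

open scoped Classical

open Pool.Agent.TH841.NF.D (Sha)

open Pool.Agent.Y682 (NCl)

/-- The quadratic twist `E_d` of `X_0(14)` (`d = 1` modulo `4`), with its global minimal equation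
`y² + x y + y = x³ + ((d - 1)/4) x² + ((9 d² - 1)/2) x - (23 d³ + 1)/4`.  It is isomorphic to
`Y² = X (X² + 13 d X + 128 d²)` by `X = 4 (x - d)`, `Y = 4 (2 y + x + 1)`. -/
def twist (d : ℤ) : WeierstrassCurve ℤ :=
  ⟨1, (d - 1) / 4, 1, (9 * d ^ 2 - 1) / 2, -((23 * d ^ 3 + 1) / 4)⟩

/-- The elliptic curve `X_0(14)`, with its global minimal equation
`y² + x y + y = x³ + 4 x - 6`. -/
def E : WeierstrassCurve ℤ := ⟨1, 0, 1, 4, -6⟩

/-- The curve given by the equation of `W` over the ring `R`. -/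
abbrev base (W : WeierstrassCurve ℤ) (R : Type) [CommRing R] : WeierstrassCurve R :=
  W.map (Int.castRingHom R)

/-- The number of the affine points `(x, y)` over the ring `R`. -/
noncomputable def pts (W : WeierstrassCurve ℤ) (R : Type) [CommRing R] : ℕ :=
  Nat.card {P : R × R // (base W R).toAffine.Equation P.1 P.2}

section

variable {K : Type} [Field K] [NumberField K]

/-- `a_v = N v + 1 - #W(k_v)`, the points over the residue field `k_v` counted with the point at
infinity. -/
noncomputable def a (W : WeierstrassCurve ℤ) (v : HeightOneSpectrum (𝓞 K)) : ℤ :=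
  (Ideal.absNorm v.asIdeal : ℤ) - pts W (𝓞 K ⧸ v.asIdeal)

/-- The Euler factor of `L(W/K, s)` at `v` : `(1 - a_v N v^(-s) + N v^(1 - 2 s))⁻¹` if the
discriminant is a unit at `v`, and `(1 - a_v N v^(-s))⁻¹` otherwise. -/
noncomputable def factor (W : WeierstrassCurve ℤ) (s : ℂ) (v : HeightOneSpectrum (𝓞 K)) : ℂ :=
  (1 - (a W v : ℂ) * (Ideal.absNorm v.asIdeal : ℂ) ^ (-s) +
    if ((W.Δ : ℤ) : 𝓞 K) ∈ v.asIdeal then 0 else (Ideal.absNorm v.asIdeal : ℂ) ^ (1 - 2 * s))⁻¹

/-- The equation is minimal at the finite place `v` of `K`: no change of variables over `K` that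
keeps the coefficients integral at `v` decreases the valuation of the discriminant. -/
def MinimalAt (W : WeierstrassCurve ℤ) (v : HeightOneSpectrum (𝓞 K)) : Prop :=
  ∀ C : VariableChange K, v.valuation K (C • base W K).a₁ ≤ 1 →
    v.valuation K (C • base W K).a₂ ≤ 1 → v.valuation K (C • base W K).a₃ ≤ 1 →
    v.valuation K (C • base W K).a₄ ≤ 1 → v.valuation K (C • base W K).a₆ ≤ 1 →
    v.valuation K (C • base W K).Δ ≤ v.valuation K (base W K).Δ

end

section

variable (K : Type) [Field K] [NumberField K]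

/-- The rank of the group of the points over `K`. -/
noncomputable def rank (W : WeierstrassCurve ℤ) : ℕ := Module.finrank ℤ (base W K).toAffine.Point

/-- The rank is zero and the Tate-Shafarevich group over `K` has no element of order two. -/
def RankShaTrivial (W : WeierstrassCurve ℤ) : Prop :=
  rank K W = 0 ∧ ∀ x : Sha (base W K), 2 • x = 0 → x = 0

/-- The equation is minimal over `K`, there is an entire function equal to `L(W/K, s)` for
`Re s > 3 / 2`, and its value at `1` is not zero. -/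
def AnalyticRankZero (W : WeierstrassCurve ℤ) : Prop :=
  (∀ v : HeightOneSpectrum (𝓞 K), MinimalAt W v) ∧
  ∃ L : ℂ → ℂ, Differentiable ℂ L ∧
    (∀ s : ℂ, 3 / 2 < s.re → HasProd (factor (K := K) W s) (L s)) ∧ L 1 ≠ 0

/-- `n` generates a prime ideal of the ring of integers of `K`. -/
def InertIn (n : ℕ) : Prop := (Ideal.span {((n : ℕ) : 𝓞 K)}).IsPrime

end

/-- The subfield `ℚ(√D₀, √D₁, …)` of `ℂ`. -/
noncomputable def multiquadratic {t : ℕ} (D : Fin (t + 2) → ℕ) : IntermediateField ℚ ℂ :=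
  IntermediateField.adjoin ℚ {z : ℂ | ∃ i, z ^ 2 = (D i : ℂ)}

/-- The subfield of `ℂ` generated by the `q`-th roots of unity. -/
noncomputable def cyclotomic (q : ℕ) : IntermediateField ℚ ℂ :=
  IntermediateField.adjoin ℚ {z : ℂ | z ^ q = 1}

/-- The inert primes. -/
def Inert (q : ℕ) : Prop := q.Prime ∧ q % 8 = 5 ∧ (q % 7 = 3 ∨ q % 7 = 5 ∨ q % 7 = 6)

/-- The split primes. -/
def Split (p : ℕ) : Prop := p.Prime ∧ p % 8 = 1 ∧ (p % 7 = 1 ∨ p % 7 = 2 ∨ p % 7 = 4)

/-- The `D i` are squarefree and pairwise coprime, all their prime factors are in `S` and split or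
inert; `D 0` and `D 1` have one split prime factor each, the other `D i` have none, and `D i` has `r i`
inert prime factors. -/
def Family (S : Set ℕ) {t : ℕ} (r : Fin (t + 2) → ℕ) (D : Fin (t + 2) → ℕ) : Prop :=
  (∀ i, Squarefree (D i) ∧ (∀ p : ℕ, p.Prime → p ∣ D i → p ∈ S ∧ (Split p ∨ Inert p)) ∧
    ((D i).primeFactors.filter fun p => p % 8 = 1).card = (if i = 0 ∨ i = 1 then 1 else 0) ∧
    ((D i).primeFactors.filter fun p => p % 8 = 5).card = r i) ∧
  Pairwise fun i j => Nat.Coprime (D i) (D j)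

/-- For all the products `d` of some of the `D i`, the rank of `E_d(ℚ)` is zero and the
Tate-Shafarevich group of `E_d` over `ℚ` has no element of order two. -/
def SimultaneouslyTrivial {t : ℕ} (D : Fin (t + 2) → ℕ) : Prop :=
  ∀ A : Finset (Fin (t + 2)), RankShaTrivial ℚ (twist ((∏ i ∈ A, D i : ℕ) : ℤ))

/-- The subfield `K` of the field of the `q`-th roots of unity is allowed for `D`: `q` is a power of a
prime not dividing `14`, the degree of `K` is odd, either `3` divides `q` or `2` and `7` are inert in `K`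
and the narrow class number of `K` is odd, and the prime factors of the `D i` divide `q` or are inert
in `K`. -/
def Allowed {t : ℕ} (D : Fin (t + 2) → ℕ) (q : ℕ) (K : IntermediateField ℚ ℂ) [NumberField K] : Prop :=
  IsPrimePow q ∧ q.Coprime 14 ∧ K ≤ cyclotomic q ∧ Odd (Module.finrank ℚ K) ∧
    (3 ∣ q ∨ (InertIn K 2 ∧ InertIn K 7 ∧ Odd (Nat.card (NCl K)))) ∧
    ∀ (i : Fin (t + 2)) (p : ℕ), p.Prime → p ∣ D i → p ∣ q ∨ InertIn K p

/-- `SimultaneouslyTrivial`; for all the products `d` of some of the `D i` the `L`-function of `E_d` is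
entire and does not vanish at `1`; and for all the allowed fields `K`, the `L`-functions of
`E = X_0(14)` over `F₀ = ℚ(√D₀, √D₁, …)` and over `F = F₀ K` are entire and do not vanish at `1`, and
the ranks of `E(F₀)` and `E(F)` are zero. -/
def Good {t : ℕ} (D : Fin (t + 2) → ℕ) : Prop :=
  SimultaneouslyTrivial D ∧
  (∀ A : Finset (Fin (t + 2)), AnalyticRankZero ℚ (twist ((∏ i ∈ A, D i : ℕ) : ℤ))) ∧
  ∀ (q : ℕ) (K : IntermediateField ℚ ℂ) [NumberField K], Allowed D q K →
    ∀ (F₀ F : IntermediateField ℚ ℂ) [NumberField F₀] [NumberField F],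
    F₀ = multiquadratic D → F = F₀ ⊔ K →
    ∃ L₀ L : ℂ → ℂ, Differentiable ℂ L₀ ∧ Differentiable ℂ L ∧
      (∀ s : ℂ, 3 / 2 < s.re → HasProd (factor (K := F₀) E s) (L₀ s)) ∧
      (∀ s : ℂ, 3 / 2 < s.re → HasProd (factor (K := F) E s) (L s)) ∧
      L₀ 1 ≠ 0 ∧ L 1 ≠ 0 ∧ rank F₀ E = 0 ∧ rank F E = 0

/-- at least a positive proportion of the primes up to `Y` is in `S` and of the kind `Q`, for all large
`Y` -/
def Dense (S : Set ℕ) (Q : ℕ → Prop) : Prop := ∃ (δ : ℝ) (Y₀ : ℕ), 0 < δ ∧ ∀ Y : ℕ, Y₀ ≤ Y →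
  δ * (Y / Real.log Y) ≤ (Nat.card {p : ℕ // p ≤ Y ∧ p ∈ S ∧ Q p} : ℝ)

/-- the number of the vectors `D` with `Q D` and with product at most `X` -/
noncomputable def count {t : ℕ} (Q : (Fin (t + 2) → ℕ) → Prop) (X : ℕ) : ℕ :=
  Nat.card {D : Fin (t + 2) → ℕ // Q D ∧ ∏ i, D i ≤ X}

lemma E_disc : E.Δ = -21952 := by
  unfold E WeierstrassCurve.Δ WeierstrassCurve.b₂ WeierstrassCurve.b₄ WeierstrassCurve.b₆
    WeierstrassCurve.b₈
  norm_num

lemma disc_mem {K : Type} [Field K] [NumberField K] (v : HeightOneSpectrum (𝓞 K)) :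
    ((E.Δ : ℤ) : 𝓞 K) ∈ v.asIdeal ↔ ((14 : ℤ) : 𝓞 K) ∈ v.asIdeal := by
  have h2 : ((E.Δ : ℤ) : 𝓞 K) = -(((14 : ℤ) : 𝓞 K) ^ 3 * 8) := by
    rw [E_disc]; push_cast; norm_num
  have h3 : ((14 : ℤ) : 𝓞 K) = 2 * 7 := by push_cast; norm_num
  rw [h2, neg_mem_iff]
  constructor
  · intro h
    rcases v.isPrime.mem_or_mem h with h | h
    · exact v.isPrime.mem_of_pow_mem 3 h
    · rw [show (8 : 𝓞 K) = 2 ^ 3 by norm_num] at h
      rw [h3]
      exact Ideal.mul_mem_right _ _ (v.isPrime.mem_of_pow_mem 3 h)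
  · intro h
    exact Ideal.mul_mem_right _ _ (Ideal.pow_mem_of_mem _ h 3 (by norm_num))

lemma factor_eq {K : Type} [Field K] [NumberField K] (s : ℂ) :
    factor (K := K) E s = Pool.Agent.Y682.XT.fE (K := K) s := by
  funext v
  have h1 : a E v = Pool.Agent.Y682.XT.av v := rfl
  unfold factor Pool.Agent.Y682.XT.fE
  rw [h1]
  simp only [disc_mem]

lemma rank_eq (F : Type) [Field F] [NumberField F] : rank F E = Pool.Agent.Y682.XD.RR F 1 := by
  rw [← Pool.Agent.Y682.XD.rank_E F]
  rfl

open Pool.Agent.V11291.FK (Dn) in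
lemma dense_iff (S : Set ℕ) (Q : ℕ → Prop) : Dense S Q ↔ Dn fun p => p ∈ S ∧ Q p := by
  unfold Dense Dn
  have h : ∀ Y : ℕ, Nat.card {p : ℕ // p ≤ Y ∧ p ∈ S ∧ Q p} =
      ((range (Y + 1)).filter fun p => p ∈ S ∧ Q p).card := by
    intro Y
    rw [← Fintype.card_coe, ← Nat.card_eq_fintype_card]
    refine Nat.card_congr (Equiv.subtypeEquivRight fun p => ?_)
    rw [Finset.mem_filter, Finset.mem_range, Nat.lt_succ_iff]
  simp only [h]
  refine exists_congr fun δ => exists_congr fun Y₀ => and_congr_right fun _ =>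
    forall_congr' fun Y => imp_congr_right fun _ => ?_
  rw [iff_iff_eq]
  congr!

open Pool.Agent.W2helper41.B (Fms FX Gv mem_FX kp) in
lemma fam_iff (S : Set ℕ) {t : ℕ} (r : Fin (t + 2) → ℕ) (D : Fin (t + 2) → ℕ) :
    Family S r D ↔ Fms (fun p => p ∈ S) r D := by
  unfold Family Fms Pool.Agent.W2helper41.Z.Fam
  refine and_congr_left fun _ => forall_congr' fun i => ?_
  constructor
  · rintro ⟨h1, h2, h3, h4⟩
    exact ⟨h1, fun p hp => h2 p (Nat.prime_of_mem_primeFactors hp)
      (Nat.dvd_of_mem_primeFactors hp), h3, h4⟩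
  · rintro ⟨h1, h2, h3, h4⟩
    exact ⟨h1, fun p hp hd => h2 p (Nat.mem_primeFactors.2 ⟨hp, hd, h1.ne_zero⟩), h3, h4⟩

open Pool.Agent.W2helper41.B (Fms FX Gv mem_FX) in
lemma count_eq (S : Set ℕ) {t : ℕ} (r : Fin (t + 2) → ℕ) (Q : (Fin (t + 2) → ℕ) → Prop) (X : ℕ) :
    count (fun D => Family S r D ∧ Q D) X = ((FX (fun p => p ∈ S) r X).filter Q).card := by
  unfold count
  rw [← Fintype.card_coe, ← Nat.card_eq_fintype_card]
  refine Nat.card_congr (Equiv.subtypeEquivRight fun D => ?_)
  show (Family S r D ∧ Q D) ∧ ∏ i, D i ≤ X ↔ D ∈ (FX (fun p => p ∈ S) r X).filter Q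
  rw [Finset.mem_filter, mem_FX, fam_iff]
  tauto

open Pool.Agent.W2helper41.B (Fms FX Gv mem_FX) in
lemma count_all (S : Set ℕ) {t : ℕ} (r : Fin (t + 2) → ℕ) (X : ℕ) :
    count (Family S r) X = (FX (fun p => p ∈ S) r X).card := by
  unfold count
  rw [← Fintype.card_coe, ← Nat.card_eq_fintype_card]
  refine Nat.card_congr (Equiv.subtypeEquivRight fun D => ?_)
  rw [mem_FX, fam_iff]

open Pool.Agent.W2helper41.B (Fms FX Gv mem_FX prods) in
/-- the condition on the matrices -/
lemma gv_iff {S : Set ℕ} {t : ℕ} {r : Fin (t + 2) → ℕ} {D : Fin (t + 2) → ℕ} (hD : Family S r D) :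
    SimultaneouslyTrivial D ↔ Gv D := by
  rw [fam_iff] at hD
  unfold SimultaneouslyTrivial Gv
  refine forall_congr' fun A => ?_
  obtain ⟨h1, h2, h3, h4⟩ := prods hD A
  have h := Pool.Agent.W2helper41.X.crit h2 h1
  rw [← h4] at h
  exact h.symm

lemma analytic {T P : Finset ℕ} (hT : ∀ q ∈ T, Inert q) (hP : ∀ p ∈ P, Split p) (hc : P.card ≤ 2)
    (hdet : (Pool.Agent.W2helper41.X.mat P (∏ q ∈ T, q)).det ≠ 0) :
    AnalyticRankZero ℚ (twist (((∏ q ∈ T, q) * ∏ p ∈ P, p : ℕ) : ℤ)) := by
  obtain ⟨a1, -, a3, a4, -, L₁, x₁, b1, b2, b3, -, b5⟩ :=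
    Pool.Agent.W2helper41.X.main Pool.Agent.W2helper41.X.parts hP hT hc
  refine ⟨a1, L₁, b1, b2, fun h0 => ?_⟩
  rw [h0, zero_mul] at b3
  have h1 : (x₁ : ℂ) ≠ 0 := Rat.cast_ne_zero.2 (b5.2 hdet).1
  exact mul_ne_zero (mul_ne_zero h1 (Complex.ofReal_ne_zero.2 a3.ne'))
    (Nat.cast_ne_zero.2 a4.ne') b3.symm

lemma mq_eq {t : ℕ} (D : Fin (t + 2) → ℕ) : multiquadratic D =
    Pool.Agent.Y682.XD.mq ((univ.image D).map (Nat.castEmbedding (R := ℤ))) := by
  rw [← Pool.Agent.W2helper41.Y.mq_nat]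
  unfold multiquadratic
  congr 1
  ext z
  constructor
  · rintro ⟨i, hi⟩
    exact ⟨D i, mem_image_of_mem _ (mem_univ i), hi⟩
  · rintro ⟨d, hd, hz⟩
    obtain ⟨i, -, rfl⟩ := mem_image.1 hd
    exact ⟨i, hz⟩

/-- the fields -/
lemma fields {S : Set ℕ} {t : ℕ} {r : Fin (t + 2) → ℕ} (hr : ∀ i, 0 < r i) {D : Fin (t + 2) → ℕ}
    (hD : Family S r D) (hG : Pool.Agent.W2helper41.B.Gv D) (q : ℕ) (K : IntermediateField ℚ ℂ)
    [NumberField K] (hK : Allowed D q K) (F₀ F : IntermediateField ℚ ℂ) [NumberField F₀]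
    [NumberField F] (hF₀ : F₀ = multiquadratic D) (hF : F = F₀ ⊔ K) :
    ∃ L₀ L : ℂ → ℂ, Differentiable ℂ L₀ ∧ Differentiable ℂ L ∧
      (∀ s : ℂ, 3 / 2 < s.re → HasProd (factor (K := F₀) E s) (L₀ s)) ∧
      (∀ s : ℂ, 3 / 2 < s.re → HasProd (factor (K := F) E s) (L s)) ∧
      L₀ 1 ≠ 0 ∧ L 1 ≠ 0 ∧ rank F₀ E = 0 ∧ rank F E = 0 := by
  obtain ⟨hq, hco, hKq, hodd, hcl, hin⟩ := hK
  have : NeZero q := ⟨hq.ne_zero⟩
  have hD' := (fam_iff S r D).1 hD
  have hreg := Pool.Agent.W2helper41.Y.regz_of (Pool.Agent.W2helper41.B.gv_adm hr hD' hG)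
  have hone : ∀ i, Pool.Agent.W2helper41.Y.Reg (D i) := by
    intro i
    have h := Pool.Agent.W2helper41.B.gv_reg hD' hG {i}
    rwa [prod_singleton] at h
  have hHS : Pool.Agent.Y682.XD.HypS q K ((univ.image D).map (Nat.castEmbedding (R := ℤ))) := by
    intro d hd
    obtain ⟨n, hn, rfl⟩ := mem_map.1 hd
    obtain ⟨i, -, rfl⟩ := mem_image.1 hn
    have h4 := (hone i).four
    refine ⟨Int.squarefree_natCast.2 (hone i).sqf, ?_, ?_⟩
    · show ((D i : ℕ) : ℤ) % 4 = 1
      omega
    · intro p hp hpn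
      have hpn' : p ∣ D i := Int.natCast_dvd_natCast.1 hpn
      exact ⟨(hone i).not_dvd hp hpn', hin i p hp hpn'⟩
  obtain ⟨L₀, L, h1, h2, h3, h4, h5, h6, h7, h8⟩ :=
    Pool.Agent.W2helper41.Y.main' Pool.Agent.W2helper41.Y.parts q hq hco K hKq hodd hcl
      ((univ.image D).map (Nat.castEmbedding (R := ℤ))) hHS hreg F₀ F (hF₀.trans (mq_eq D)) hF
  refine ⟨L₀, L, h1, h2, fun s hs => ?_, fun s hs => ?_, h5, h6, ?_, ?_⟩
  · rw [factor_eq]; exact h3 s hs
  · rw [factor_eq]; exact h4 s hs
  · rw [rank_eq, h7]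
  · rw [rank_eq, h8]

lemma good_iff {S : Set ℕ} {t : ℕ} {r : Fin (t + 2) → ℕ} (hr : ∀ i, 0 < r i) {D : Fin (t + 2) → ℕ}
    (hD : Family S r D) : Good D ↔ SimultaneouslyTrivial D := by
  refine ⟨fun h => h.1, fun h => ⟨h, fun A => ?_, ?_⟩⟩
  · have hG := (gv_iff hD).1 h
    obtain ⟨h1, h2, h3, h4⟩ := Pool.Agent.W2helper41.B.prods ((fam_iff S r D).1 hD) A
    have h5 := analytic h1 h2 h3 (hG A)
    rw [← h4] at h5
    exact h5
  · intro q K _ hK F₀ F _ _ hF₀ hF
    exact fields hr hD ((gv_iff hD).1 h) q K hK F₀ F hF₀ hF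

/-- **Main theorem.**

(1) Let `S` be a set of primes with positive lower densities among the split and the inert primes,
`t ≥ 0` and `r 0, …, r (t + 1) ≥ 1`.  The number of the vectors in the family with product at most `X`
is between two positive constants times `X (log log X)^(r 0 + ⋯ + r (t + 1) + 1) / log X`.  Both the
proportion of the simultaneously trivial vectors and the proportion of the good vectors tend to
`(1/2)^(2 t + 3)`.

(2) A vector of the family is good if and only if it is simultaneously trivial.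

(3) Every subfield `K` of odd degree of the field of the `3^(n + 1)`-th roots of unity is allowed for
the vectors `D` such that the prime factors of the `D i` are `2`, `4`, `5` or `7` modulo `9`.

(4) The conditions on `S` are satisfied by the set of the numbers that are `2`, `4`, `5` or `7` modulo
`9`, and by the residue class of `c` modulo `N` for all `N` prime to `14` and `c` prime to `N`. -/
theorem result :
    (∀ S : Set ℕ, Dense S Split → Dense S Inert →
      ∀ (t : ℕ) (r : Fin (t + 2) → ℕ), (∀ i, 0 < r i) →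
      (∃ (c C : ℝ) (X₀ : ℕ), 0 < c ∧ 0 < C ∧ ∀ X : ℕ, X₀ ≤ X →
        c * (X * Real.log (Real.log X) ^ ((∑ i, r i) + 1) / Real.log X) ≤
          (count (Family S r) X : ℝ) ∧
        (count (Family S r) X : ℝ) ≤
          C * (X * Real.log (Real.log X) ^ ((∑ i, r i) + 1) / Real.log X)) ∧
      Tendsto (fun X : ℕ => (count (fun D => Family S r D ∧ SimultaneouslyTrivial D) X : ℝ) /
        (count (Family S r) X : ℝ)) atTop (𝓝 ((1 / 2 : ℝ) ^ (2 * t + 3))) ∧
      Tendsto (fun X : ℕ => (count (fun D => Family S r D ∧ Good D) X : ℝ) /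
        (count (Family S r) X : ℝ)) atTop (𝓝 ((1 / 2 : ℝ) ^ (2 * t + 3)))) ∧
    (∀ (S : Set ℕ) (t : ℕ) (r D : Fin (t + 2) → ℕ), (∀ i, 0 < r i) → Family S r D →
      (Good D ↔ SimultaneouslyTrivial D)) ∧
    (∀ (n : ℕ) (K : IntermediateField ℚ ℂ) [NumberField K], K ≤ cyclotomic (3 ^ (n + 1)) →
      Odd (Module.finrank ℚ K) → ∀ (t : ℕ) (D : Fin (t + 2) → ℕ),
      (∀ (i : Fin (t + 2)) (p : ℕ), p.Prime → p ∣ D i →
        p % 9 = 2 ∨ p % 9 = 4 ∨ p % 9 = 5 ∨ p % 9 = 7) →
      Allowed D (3 ^ (n + 1)) K) ∧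
    (Dense {p | p % 9 = 2 ∨ p % 9 = 4 ∨ p % 9 = 5 ∨ p % 9 = 7} Split ∧
      Dense {p | p % 9 = 2 ∨ p % 9 = 4 ∨ p % 9 = 5 ∨ p % 9 = 7} Inert) ∧
    ∀ N c : ℕ, N.Coprime 14 → c.Coprime N →
      Dense {p | p % N = c % N} Split ∧ Dense {p | p % N = c % N} Inert := by
  refine ⟨?_, fun S t r D hr hD => good_iff hr hD, ?_, ?_, ?_⟩
  · intro S hS1 hS2 t r hr
    have hR : Pool.Agent.W2helper41.Z.Rich fun p => p ∈ S :=
      ⟨(dense_iff S Split).1 hS1, (dense_iff S Inert).1 hS2⟩
    have hlaw := Pool.Agent.W2helper41.B.V_law hr hR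
    have h1 : Tendsto (fun X : ℕ =>
        (count (fun D => Family S r D ∧ SimultaneouslyTrivial D) X : ℝ) /
        (count (Family S r) X : ℝ)) atTop (𝓝 ((1 / 2 : ℝ) ^ (2 * t + 3))) := by
      refine hlaw.congr fun X => ?_
      rw [count_all, count_eq]
      congr 3
      refine Finset.filter_congr fun D hD => ?_
      rw [Pool.Agent.W2helper41.B.mem_FX, ← fam_iff] at hD
      exact (gv_iff hD.1).symm
    refine ⟨?_, h1, ?_⟩
    · obtain ⟨c, C, X₀, hc, hC, h⟩ := Pool.Agent.W2helper41.B.V_size (r := r) hR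
      refine ⟨c, C, X₀, hc, hC, fun X hX => ?_⟩
      rw [count_all]
      exact h X hX
    · refine h1.congr fun X => ?_
      rw [count_eq, count_eq]
      congr 3
      refine Finset.filter_congr fun D hD => ?_
      rw [Pool.Agent.W2helper41.B.mem_FX, ← fam_iff] at hD
      exact (good_iff hr hD.1).symm
  · intro n K _ hK hodd t D hD
    refine ⟨⟨3, n + 1, Nat.prime_three.prime, by omega, rfl⟩, ?_, hK, hodd,
      Or.inl (dvd_pow_self 3 (by omega)), fun i p hp hpD => Or.inr ?_⟩
    · exact Nat.Coprime.pow_left _ (by norm_num)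
    · exact Pool.Agent.W2helper41.B.layer_inert n K hK hodd hp (hD i p hp hpD)
  · obtain ⟨h2, h3⟩ := Pool.Agent.W2helper41.Z.rich_class (N := 9) (a := 2) (by norm_num)
      (by norm_num)
    refine ⟨(dense_iff _ Split).2 (Pool.Agent.W2helper41.Z.dn_mono (fun p hp => ?_) h2),
      (dense_iff _ Inert).2 (Pool.Agent.W2helper41.Z.dn_mono (fun p hp => ?_) h3)⟩
    · exact ⟨Or.inl hp.1, hp.2⟩
    · exact ⟨Or.inl hp.1, hp.2⟩
  · intro N c hN hc
    obtain ⟨h2, h3⟩ := Pool.Agent.W2helper41.Z.rich_class hN hc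
    exact ⟨(dense_iff _ Split).2 h2, (dense_iff _ Inert).2 h3⟩

end Pool.Agent.Results.MP_32c55d_nt.MultiquadraticProportions
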