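import Pool.Agent.W2helper41.N.Num
import Pool.Agent.W2helper41.Z.Lay

/-!
# The rank part of the Birch and Swinnerton-Dyer conjecture over the layers of the cyclotomic
# `ℤ₃`-extension for half of the quadratic twists of `X_0(14)` with any number of inert prime factors

`E_D` is the quadratic twist by `D` of the modular curve `X_0(14)`; the curves have no complex
multiplication.  A prime is inert if it is `5` modulo `8` and not a square modulo `7`, and split if it
is `1` modulo `8` and a square modulo `7`.  Let `S` be a set of primes of positive lower density both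
among the inert and among the split primes, such that the sum of the inverses of the inert primes of `S`
up to `y` is `δ log log y` up to a bounded error; for example the primes in any nonempty set `R` of
reduced residue classes modulo a number `N` prime to `14`, with `δ = #R / (8 φ(N))`.  Let `k ≥ 1`.  The
family consists of the squarefree `D` with exactly `k` split and any number of inert prime factors, all
of them in `S`.

* The number of the `D ≤ X` in the family has the order of magnitude
  `X (log X)^(δ - 1) (log log X)^k`.  If `S` is the set of all primes, this is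
  `X (log X)^(-7/8) (log log X)^k`.
* The proportion of the `D` for which `E_D(ℚ)` has rank zero and `Ш(E_D/ℚ)` has no element of order two
  tends to `s_k = ∏_{i < ⌊(k + 1) / 2⌋} (1 - 2^{-(2 i + 1)})`, that is `1/2`, `1/2`, `7/16`, `7/16`,
  `217/512`, ... : the proportion of the nonsingular matrices among the symmetric matrices of size `k`
  over the field with two elements.
* Let `k ≤ 2`.  For exactly these `D`, so for half of the family, `L(E_D/K, s)` is entire, does not
  vanish at `s = 1`, and `E_D(K)` has rank zero, for `K = ℚ` and for every subfield `K` of odd degree of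
  the field of the `q`-th roots of unity, `q` a power of a prime not dividing `14`, in which the prime
  factors of `D` are inert, if `q` is a power of three or if `2` and `7` are inert in `K` and the narrow
  class number of `K` is odd.
* If all the prime factors of `D` are `2`, `4`, `5` or `7` modulo `9`, then all the layers of the
  cyclotomic `ℤ₃`-extension of `ℚ`, which are number fields of the degrees `3^n`, are such fields `K`.
  These primes can be taken as `S`, with `δ = 1/12`.

The proof.  Algebraic side: descent with the two isogenies of degree two gives a matrix of residue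
symbols which is nonsingular if and only if the rank is zero and `Ш` has no element of order two.
Analytic side: the central values of at most two split primes are computed modulo the next power of two.
Statistics: for each set of inert primes, the other prime factors of `D` being the `k` split ones and the
largest inert one, the matrix of residue symbols is equidistributed by the quadratic large sieve in
boxes (library), uniformly in the set.
-/

set_option autoImplicit false

open NumberField IsDedekindDomain WeierstrassCurve Filter Topology Finset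

namespace Pool.Agent.Results.MP_32c55d_nt.NaturalFamilies

open scoped Classical

open Pool.Agent.TH841.NF.D (Sha)

open Pool.Agent.Y682 (NCl)

/-- The quadratic twist `E_D` of `X_0(14)` (`D = 1` modulo `4`), with its global minimal equation
`y² + x y + y = x³ + ((D - 1)/4) x² + ((9 D² - 1)/2) x - (23 D³ + 1)/4`.  It is isomorphic to
`Y² = X (X² + 13 D X + 128 D²)` by `X = 4 (x - D)`, `Y = 4 (2 y + x + 1)`. -/
def twist (D : ℤ) : WeierstrassCurve ℤ :=
  ⟨1, (D - 1) / 4, 1, (9 * D ^ 2 - 1) / 2, -((23 * D ^ 3 + 1) / 4)⟩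

/-- The curve given by the equation of `W` over the ring `R`. -/
abbrev base (W : WeierstrassCurve ℤ) (R : Type) [CommRing R] : WeierstrassCurve R :=
  W.map (Int.castRingHom R)

/-- The number of the affine points `(x, y)` over the ring `R`. -/
noncomputable def pts (W : WeierstrassCurve ℤ) (R : Type) [CommRing R] : ℕ :=
  Nat.card {P : R × R // (base W R).toAffine.Equation P.1 P.2}

section

variable {K : Type} [Field K] [NumberField K]

/-- `a_v = N v + 1 - #W(k_v)`, the points over the residue field `k_v` counted with the point at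
infinity. -/
noncomputable def a (W : WeierstrassCurve ℤ) (v : HeightOneSpectrum (𝓞 K)) : ℤ :=
  (Ideal.absNorm v.asIdeal : ℤ) - pts W (𝓞 K ⧸ v.asIdeal)

/-- The Euler factor of `L(W/K, s)` at `v` : `(1 - a_v N v^(-s) + N v^(1 - 2 s))⁻¹` if the
discriminant is a unit at `v`, and `(1 - a_v N v^(-s))⁻¹` otherwise. -/
noncomputable def factor (W : WeierstrassCurve ℤ) (s : ℂ) (v : HeightOneSpectrum (𝓞 K)) : ℂ :=
  (1 - (a W v : ℂ) * (Ideal.absNorm v.asIdeal : ℂ) ^ (-s) +
    if ((W.Δ : ℤ) : 𝓞 K) ∈ v.asIdeal then 0 else (Ideal.absNorm v.asIdeal : ℂ) ^ (1 - 2 * s))⁻¹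

/-- The equation is minimal at the finite place `v` of `K`: no change of variables over `K` that
keeps the coefficients integral at `v` decreases the valuation of the discriminant. -/
def MinimalAt (W : WeierstrassCurve ℤ) (v : HeightOneSpectrum (𝓞 K)) : Prop :=
  ∀ C : VariableChange K, v.valuation K (C • base W K).a₁ ≤ 1 →
    v.valuation K (C • base W K).a₂ ≤ 1 → v.valuation K (C • base W K).a₃ ≤ 1 →
    v.valuation K (C • base W K).a₄ ≤ 1 → v.valuation K (C • base W K).a₆ ≤ 1 →
    v.valuation K (C • base W K).Δ ≤ v.valuation K (base W K).Δ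

end

section

variable (K : Type) [Field K] [NumberField K]

/-- The rank of the group of the points over `K`. -/
noncomputable def rank (W : WeierstrassCurve ℤ) : ℕ := Module.finrank ℤ (base W K).toAffine.Point

/-- The rank is zero and the Tate-Shafarevich group over `K` has no element of order two. -/
def RankShaTrivial (W : WeierstrassCurve ℤ) : Prop :=
  rank K W = 0 ∧ ∀ x : Sha (base W K), 2 • x = 0 → x = 0

/-- The equation is minimal over `K`, there is an entire function equal to `L(W/K, s)` for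
`Re s > 3 / 2`, and its value at `1` is not zero. -/
def AnalyticRankZero (W : WeierstrassCurve ℤ) : Prop :=
  (∀ v : HeightOneSpectrum (𝓞 K), MinimalAt W v) ∧
  ∃ L : ℂ → ℂ, Differentiable ℂ L ∧
    (∀ s : ℂ, 3 / 2 < s.re → HasProd (factor (K := K) W s) (L s)) ∧ L 1 ≠ 0

/-- `n` generates a prime ideal of the ring of integers of `K`. -/
def InertIn (n : ℕ) : Prop := (Ideal.span {((n : ℕ) : 𝓞 K)}).IsPrime

end

/-- The inert primes. -/
def Inert (q : ℕ) : Prop := q.Prime ∧ q % 8 = 5 ∧ (q % 7 = 3 ∨ q % 7 = 5 ∨ q % 7 = 6)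

/-- The split primes. -/
def Split (p : ℕ) : Prop := p.Prime ∧ p % 8 = 1 ∧ (p % 7 = 1 ∨ p % 7 = 2 ∨ p % 7 = 4)

/-- The field `K`, contained in the field `M` of the `q`-th roots of unity, is allowed for the twist by
`D`: `q` is a power of a prime not dividing `14`, the degree of `K` is odd, either `3` divides `q` or
`2` and `7` are inert in `K` and the narrow class number of `K` is odd, and the prime factors of `D` do
not divide `q` and are inert in `K`. -/
def Allowed (D q : ℕ) {M : Type} [Field M] [NumberField M] (K : IntermediateField ℚ M) : Prop :=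
  IsPrimePow q ∧ q.Coprime 14 ∧ IsCyclotomicExtension {q} ℚ M ∧ Odd (Module.finrank ℚ K) ∧
    (3 ∣ q ∨ (InertIn K 2 ∧ InertIn K 7 ∧ Odd (Nat.card (NCl K)))) ∧
    ∀ p : ℕ, p.Prime → p ∣ D → ¬ p ∣ q ∧ InertIn K p

/-- Over `ℚ` and over all the fields allowed for `D` the `L`-function of `E_D` is entire and does not
vanish at `1`, the rank is zero, and the Tate-Shafarevich group has no element of order two. -/
def Good (D : ℕ) : Prop :=
  (AnalyticRankZero ℚ (twist D) ∧ RankShaTrivial ℚ (twist D)) ∧
  ∀ (q : ℕ) (M : Type) [Field M] [NumberField M] (K : IntermediateField ℚ M), Allowed D q K →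
    AnalyticRankZero K (twist D) ∧ RankShaTrivial K (twist D)

/-- `D` is squarefree, all its prime factors are in `S` and split or inert, and exactly `k` of them are
split. -/
def Family (S : Set ℕ) (k D : ℕ) : Prop :=
  Squarefree D ∧ (∀ p : ℕ, p.Prime → p ∣ D → p ∈ S ∧ (Split p ∨ Inert p)) ∧
    (D.primeFactors.filter fun p => p % 8 = 1).card = k

/-- at least a positive proportion of the primes up to `Y` is in `S` and of the kind `Q`, for all large
`Y` -/
def Dense (S : Set ℕ) (Q : ℕ → Prop) : Prop := ∃ (δ : ℝ) (Y₀ : ℕ), 0 < δ ∧ ∀ Y : ℕ, Y₀ ≤ Y →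
  δ * (Y / Real.log Y) ≤ (Nat.card {p : ℕ // p ≤ Y ∧ p ∈ S ∧ Q p} : ℝ)

/-- `S` has positive lower densities among the split and among the inert primes, and the sum of the
inverses of the inert primes of `S` up to `y` is `δ log log y` up to a bounded error. -/
def Regular (S : Set ℕ) (δ : ℝ) : Prop :=
  0 < δ ∧ δ ≤ 1 ∧ Dense S Split ∧ Dense S Inert ∧ ∃ C : ℝ, ∀ y : ℕ, 3 ≤ y →
    |∑ p ∈ (range (y + 1)).filter (fun p => p ∈ S ∧ Inert p), (1 : ℝ) / p -
      δ * Real.log (Real.log y)| ≤ C

/-- the number of the `D` with `1 ≤ D ≤ X` and `Q D` -/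
noncomputable def count (Q : ℕ → Prop) (X : ℕ) : ℕ := Nat.card {D : ℕ // 1 ≤ D ∧ D ≤ X ∧ Q D}

open Pool.Agent.W2helper41.N (FamN Rg IA SA cf)

lemma count_eq (Q : ℕ → Prop) [DecidablePred Q] (X : ℕ) : count Q X = ((Icc 1 X).filter Q).card := by
  unfold count
  rw [← Fintype.card_coe, ← Nat.card_eq_fintype_card]
  refine Nat.card_congr (Equiv.subtypeEquivRight fun p => ?_)
  rw [Finset.mem_filter, Finset.mem_Icc, and_assoc]

lemma card_le (S : Set ℕ) (Q : ℕ → Prop) {R : ℕ → Prop} (h : ∀ p, (p ∈ S ∧ Q p) ↔ R p) (Y : ℕ) :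
    Nat.card {p : ℕ // p ≤ Y ∧ p ∈ S ∧ Q p} = ((range (Y + 1)).filter R).card := by
  rw [← Fintype.card_coe, ← Nat.card_eq_fintype_card]
  refine Nat.card_congr (Equiv.subtypeEquivRight fun p => ?_)
  rw [Finset.mem_filter, Finset.mem_range, Nat.lt_succ_iff, h]

open Pool.Agent.V11291.FK (Dn) in
lemma dense_iff (S : Set ℕ) (Q : ℕ → Prop) {R : ℕ → Prop} (h : ∀ p, (p ∈ S ∧ Q p) ↔ R p) :
    Dense S Q ↔ Dn R := by
  unfold Dense Dn
  refine exists_congr fun δ => exists_congr fun Y₀ => and_congr_right fun _ =>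
    forall_congr' fun Y => imp_congr_right fun _ => ?_
  rw [card_le S Q h Y]

lemma reg_iff (S : Set ℕ) (δ : ℝ) : Regular S δ ↔ Rg (fun p => p ∈ S) δ := by
  have h1 : Dense S Split ↔ Pool.Agent.V11291.FK.Dn (SA fun p => p ∈ S) :=
    dense_iff S Split fun p => Iff.rfl
  have h2 : Dense S Inert ↔ Pool.Agent.V11291.FK.Dn (IA fun p => p ∈ S) :=
    dense_iff S Inert fun p => Iff.rfl
  have h3 : ∀ y : ℕ, ∑ p ∈ (range (y + 1)).filter (fun p => p ∈ S ∧ Inert p), (1 : ℝ) / p =
      ∑ p ∈ (range (y + 1)).filter (fun p => p.Prime ∧ IA (fun p => p ∈ S) p), (1 : ℝ) / p := by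
    intro y
    refine Finset.sum_congr ?_ fun _ _ => rfl
    refine Finset.filter_congr fun p _ => ?_
    exact ⟨fun h => ⟨h.2.1, h⟩, fun h => h.2⟩
  constructor
  · rintro ⟨a1, a2, a3, a4, C, a5⟩
    exact ⟨a1, a2, h1.1 a3, h2.1 a4, C, fun y hy => by rw [← h3]; exact a5 y hy⟩
  · rintro ⟨a1, a2, a3, a4, C, a5⟩
    exact ⟨a1, a2, h1.2 a3, h2.2 a4, C, fun y hy => by rw [h3]; exact a5 y hy⟩

lemma fam_iff (S : Set ℕ) (k D : ℕ) : Family S k D ↔ FamN (fun p => p ∈ S) k D := by
  unfold Family FamN
  constructor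
  · rintro ⟨h1, h2, h3⟩
    exact ⟨h1, fun p hp => h2 p (Nat.prime_of_mem_primeFactors hp)
      (Nat.dvd_of_mem_primeFactors hp), h3⟩
  · rintro ⟨h1, h2, h3⟩
    exact ⟨h1, fun p hp hd => h2 p (Nat.mem_primeFactors.2 ⟨hp, hd, h1.ne_zero⟩), h3⟩

lemma crit {T P : Finset ℕ} (hT : ∀ q ∈ T, Inert q) (hP : ∀ p ∈ P, Split p) :
    RankShaTrivial ℚ (twist (((∏ q ∈ T, q) * ∏ p ∈ P, p : ℕ) : ℤ)) ↔
      (Pool.Agent.W2helper41.X.mat P (∏ q ∈ T, q)).det ≠ 0 :=
  (Pool.Agent.W2helper41.X.crit hP hT).symm

lemma good_of {T P : Finset ℕ} (hT : ∀ q ∈ T, Inert q) (hP : ∀ p ∈ P, Split p) (hc : P.card ≤ 2)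
    (hdet : (Pool.Agent.W2helper41.X.mat P (∏ q ∈ T, q)).det ≠ 0) :
    Good ((∏ q ∈ T, q) * ∏ p ∈ P, p) := by
  refine ⟨⟨?_, (crit hT hP).2 hdet⟩, ?_⟩
  · obtain ⟨a1, -, a3, a4, -, L₁, x₁, b1, b2, b3, -, b5⟩ :=
      Pool.Agent.W2helper41.X.main Pool.Agent.W2helper41.X.parts hP hT hc
    refine ⟨a1, L₁, b1, b2, fun h0 => ?_⟩
    rw [h0, zero_mul] at b3
    have h1 : (x₁ : ℂ) ≠ 0 := Rat.cast_ne_zero.2 (b5.2 hdet).1
    exact mul_ne_zero (mul_ne_zero h1 (Complex.ofReal_ne_zero.2 a3.ne'))
      (Nat.cast_ne_zero.2 a4.ne') b3.symm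
  · intro q M _ _ K hK
    obtain ⟨hq, hco, hcyc, hodd, hcl, hD⟩ := hK
    have : NeZero q := ⟨hq.ne_zero⟩
    obtain ⟨h1, h2, h3, h4⟩ :=
      Pool.Agent.W2helper41.Z.lay hP hT hc hdet q hq hco M K hodd hcl hD
    exact ⟨⟨h1, h2⟩, h3, h4⟩

/-- **Main theorem.**

(1) Let `S` be a regular set of primes with the density `δ` of the inert primes, and `k ≥ 1`.  The number
of the elements up to `X` of the family of `S, k` is between two positive constants times
`X (log X)^(δ - 1) (log log X)^k`, and the proportion of the `D` in the family with rank zero and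
without elements of order two in `Ш(E_D/ℚ)` tends to
`∏_{i < ⌊(k + 1) / 2⌋} (1 - 2^{-(2 i + 1)})`.  If `k ≤ 2`, the proportion of the good `D` tends to `1/2`.

(2) The primes in a nonempty set `R` of reduced residue classes modulo a number `N` prime to `14` are
regular with the density `#R / (8 φ(N))`.

(3) Let `K` be a subfield of odd degree of the field of the `3^(n + 1)`-th roots of unity.  If all the
prime factors of `D` are `2`, `4`, `5` or `7` modulo `9`, then `K` is allowed for `D`. -/
theorem result :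
    (∀ (S : Set ℕ) (δ : ℝ), Regular S δ → ∀ k : ℕ, 0 < k →
      (∃ (c C : ℝ) (X₀ : ℕ), 0 < c ∧ 0 < C ∧ ∀ X : ℕ, X₀ ≤ X →
        c * (X * Real.log X ^ (δ - 1) * Real.log (Real.log X) ^ k) ≤
          (count (Family S k) X : ℝ) ∧
        (count (Family S k) X : ℝ) ≤
          C * (X * Real.log X ^ (δ - 1) * Real.log (Real.log X) ^ k)) ∧
      Tendsto (fun X : ℕ =>
        (count (fun D => Family S k D ∧ RankShaTrivial ℚ (twist D)) X : ℝ) /
          (count (Family S k) X : ℝ)) atTop
        (𝓝 (∏ i ∈ range ((k + 1) / 2), (1 - (1 / 2 : ℝ) ^ (2 * i + 1)))) ∧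
      (k ≤ 2 → Tendsto (fun X : ℕ =>
        (count (fun D => Family S k D ∧ Good D) X : ℝ) / (count (Family S k) X : ℝ)) atTop
        (𝓝 (1 / 2)))) ∧
    (∀ N : ℕ, N.Coprime 14 → ∀ R : Finset ℕ, R.Nonempty → (∀ a ∈ R, a < N ∧ a.Coprime N) →
      Regular {p | p % N ∈ R} (R.card / (8 * N.totient))) ∧
    ∀ (n : ℕ) (M : Type) [Field M] [NumberField M] [IsCyclotomicExtension {3 ^ (n + 1)} ℚ M]
      (K : IntermediateField ℚ M), Odd (Module.finrank ℚ K) → ∀ D : ℕ,
      (∀ p : ℕ, p.Prime → p ∣ D → p % 9 = 2 ∨ p % 9 = 4 ∨ p % 9 = 5 ∨ p % 9 = 7) →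
      Allowed D (3 ^ (n + 1)) K := by
  refine ⟨?_, ?_, ?_⟩
  · intro S δ hS k hk
    rw [reg_iff] at hS
    have e1 : ∀ X : ℕ, count (Family S k) X =
        ((Icc 1 X).filter fun D => FamN (fun p => p ∈ S) k D).card := by
      intro X
      rw [count_eq]
      exact cf fun D _ => fam_iff S k D
    have key : ∀ D : ℕ, FamN (fun p => p ∈ S) k D →
        (RankShaTrivial ℚ (twist (D : ℤ)) ↔ (Pool.Agent.W2helper41.X.mat
          (Pool.Agent.W2helper41.Z.sps D) (∏ q ∈ Pool.Agent.W2helper41.Z.ins D, q)).det ≠ 0) ∧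
        (k ≤ 2 → (Good D ↔ (Pool.Agent.W2helper41.X.mat
          (Pool.Agent.W2helper41.Z.sps D) (∏ q ∈ Pool.Agent.W2helper41.Z.ins D, q)).det ≠ 0)) := by
      intro D hD
      have hk' := hD.2.2
      rw [Pool.Agent.W2helper41.N.famN_iff] at hD
      have hT : ∀ q ∈ Pool.Agent.W2helper41.Z.ins D, Inert q := Pool.Agent.W2helper41.Z.ins_ine hD
      have hP : ∀ p ∈ Pool.Agent.W2helper41.Z.sps D, Split p := Pool.Agent.W2helper41.Z.sps_spl hD
      have e := Pool.Agent.W2helper41.Z.prod_eq hD
      have e2 := crit hT hP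
      rw [← e] at e2
      refine ⟨e2, fun hk2 => ⟨fun h => e2.1 h.1.2, fun h => ?_⟩⟩
      have hcd : (Pool.Agent.W2helper41.Z.sps D).card ≤ 2 := by
        rw [hk']
        exact hk2
      have e3 := good_of hT hP hcd h
      rw [← e] at e3
      exact e3
    have hlaw := Pool.Agent.W2helper41.N.lawN hS hk
    refine ⟨?_, ?_, fun hk2 => ?_⟩
    · obtain ⟨c, C, X₀, hc, hC, h⟩ := Pool.Agent.W2helper41.N.sizeN hS k
      refine ⟨c, C, X₀, hc, hC, fun X hX => ?_⟩
      rw [e1]
      exact h X hX
    · refine hlaw.congr fun X => ?_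
      rw [e1, count_eq]
      refine congrArg (fun n : ℕ => (n : ℝ) / _) (cf fun D _ => ?_)
      rw [fam_iff]
      exact and_congr_right fun hF => ((key D hF).1).symm
    · have hlim : ∏ i ∈ range ((k + 1) / 2), (1 - (1 / 2 : ℝ) ^ (2 * i + 1)) = 1 / 2 := by
        have h2 : (k + 1) / 2 = 1 := by omega
        rw [h2, Finset.prod_range_one]
        norm_num
      rw [hlim] at hlaw
      refine hlaw.congr fun X => ?_
      rw [e1, count_eq]
      refine congrArg (fun n : ℕ => (n : ℝ) / _) (cf fun D _ => ?_)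
      rw [fam_iff]
      exact and_congr_right fun hF => ((key D hF).2 hk2).symm
  · intro N hN R hR hRN
    rw [reg_iff]
    exact Pool.Agent.W2helper41.N.rg_class hN hR hRN
  · intro n M _ _ _ K hodd D hD
    refine ⟨⟨3, n + 1, Nat.prime_three.prime, by omega, rfl⟩, ?_, inferInstance, hodd,
      Or.inl (dvd_pow_self 3 (by omega)), fun p hp hpD => ⟨?_, ?_⟩⟩
    · exact Nat.Coprime.pow_left _ (by norm_num)
    · intro h
      have h4 := (Nat.prime_dvd_prime_iff_eq hp Nat.prime_three).1 (hp.dvd_of_dvd_pow h)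
      have h5 := hD p hp hpD
      omega
    · exact Pool.Agent.Y682.YQ.inert9 n M K hodd hp (hD p hp hpD)

end Pool.Agent.Results.MP_32c55d_nt.NaturalFamilies
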