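import Pool.Agent.W2helper41.V.Anf

/-!
# The rank conjecture over all the number fields in an infinite abelian extension of `ℚ` is equivalent
to the rank conjecture over `ℚ` for the quadratic twists

`E` is the modular curve `X_0(14)`, `y² + xy + y = x³ + 4x - 6`, a curve without complex
multiplication, and `E_D` is its quadratic twist by `D`.  A prime is inert if it is `5` modulo `8` and not a
square modulo `7`.  A prime is admissible if it is `1` modulo `4` and if it is inert or `2`, `4`, `5` or `7`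
modulo `9`.

Let `Ω` be the subfield of `ℂ` generated by the square roots of ALL the admissible primes and by the
cyclotomic `ℤ₃`-extension of `ℚ`, that is by the numbers `ζ + ζ⁻¹`, `ζ` a root of unity of order a power of
three.  `Ω` is an infinite abelian extension of `ℚ`, with Galois group `ℤ₃ × {±1}^∞`.

We prove, for EVERY number field `F` contained in `Ω`: the `L`-function of `E` over `F` is entire, and

  `ord_{s=1} L(E/F, s) = ∑_D ord_{s=1} L(E_D/ℚ, s)`  and  `rank E(F) = ∑_D rank E_D(ℚ)`,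

the sums over the squarefree positive integers `D` whose square roots are contained in `F`; there is no
condition on the orders and the ranks.  Therefore the rank conjecture of Birch and Swinnerton-Dyer for `E`
over ALL the number fields contained in `Ω` is equivalent to the rank conjecture for the twists `E_D` over
`ℚ`, `D` a product of distinct admissible primes.

The proof.  The `L`-function of `E` over `F` is the product of the `L`-functions of the twists by the
characters of `Gal(F/ℚ)`.  For all the characters of order greater than two the central value is not zero: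
it is a unit at two after division by the period and by an explicit power of two (modules
`W2helper41.L` and `W2helper41.Q`).  On the algebraic side the descent with the isogenies of degree two shows
that the squares of the automorphisms of `F` act trivially on `E(F)` modulo torsion.
-/

set_option autoImplicit false

open NumberField IsDedekindDomain WeierstrassCurve Finset

namespace Pool.Agent.Results.MP_32c55d_nt.ReductionToTwistsOverOmega

open scoped Classical

/-- The elliptic curve `X_0(14)`, with its global minimal equation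
`y² + x y + y = x³ + 4 x - 6`. -/
def E : WeierstrassCurve ℤ := ⟨1, 0, 1, 4, -6⟩

/-- The quadratic twist `E_D` of `X_0(14)` (`D = 1` modulo `4`), with its global minimal equation
`y² + x y + y = x³ + ((D - 1)/4) x² + ((9 D² - 1)/2) x - (23 D³ + 1)/4`.  It is isomorphic to
`Y² = X (X² + 13 D X + 128 D²)` by `X = 4 (x - D)`, `Y = 4 (2 y + x + 1)`. -/
def twist (D : ℤ) : WeierstrassCurve ℤ :=
  ⟨1, (D - 1) / 4, 1, (9 * D ^ 2 - 1) / 2, -((23 * D ^ 3 + 1) / 4)⟩

/-- The curve given by the equation of `W` over the ring `R`. -/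
abbrev base (W : WeierstrassCurve ℤ) (R : Type) [CommRing R] : WeierstrassCurve R :=
  W.map (Int.castRingHom R)

/-- The number of the affine points `(x, y)` over the ring `R`. -/
noncomputable def pts (W : WeierstrassCurve ℤ) (R : Type) [CommRing R] : ℕ :=
  Nat.card {P : R × R // (base W R).toAffine.Equation P.1 P.2}

section

variable {K : Type} [Field K] [NumberField K]

/-- `a_v = N v + 1 - #W(k_v)`, the points over the residue field `k_v` counted with the point at
infinity. -/
noncomputable def a (W : WeierstrassCurve ℤ) (v : HeightOneSpectrum (𝓞 K)) : ℤ :=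
  (Ideal.absNorm v.asIdeal : ℤ) - pts W (𝓞 K ⧸ v.asIdeal)

/-- The Euler factor of `L(W/K, s)` at `v` : `(1 - a_v N v^(-s) + N v^(1 - 2 s))⁻¹` if the
discriminant is a unit at `v`, and `(1 - a_v N v^(-s))⁻¹` otherwise. -/
noncomputable def factor (W : WeierstrassCurve ℤ) (s : ℂ) (v : HeightOneSpectrum (𝓞 K)) : ℂ :=
  (1 - (a W v : ℂ) * (Ideal.absNorm v.asIdeal : ℂ) ^ (-s) +
    if ((W.Δ : ℤ) : 𝓞 K) ∈ v.asIdeal then 0 else (Ideal.absNorm v.asIdeal : ℂ) ^ (1 - 2 * s))⁻¹

/-- The equation is minimal at the finite place `v` of `K`: no change of variables over `K` that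
keeps the coefficients integral at `v` decreases the valuation of the discriminant. -/
def MinimalAt (W : WeierstrassCurve ℤ) (v : HeightOneSpectrum (𝓞 K)) : Prop :=
  ∀ C : VariableChange K, v.valuation K (C • base W K).a₁ ≤ 1 →
    v.valuation K (C • base W K).a₂ ≤ 1 → v.valuation K (C • base W K).a₃ ≤ 1 →
    v.valuation K (C • base W K).a₄ ≤ 1 → v.valuation K (C • base W K).a₆ ≤ 1 →
    v.valuation K (C • base W K).Δ ≤ v.valuation K (base W K).Δ

end

section

variable (K : Type) [Field K] [NumberField K]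

/-- The rank of the group of the points over `K`. -/
noncomputable def rank (W : WeierstrassCurve ℤ) : ℕ := Module.finrank ℤ (base W K).toAffine.Point

/-- The equation `W` is minimal over `K`, and `L` is the `L`-function `L(W/K, s)`: it is entire and
equal to the Euler product for `Re s > 3 / 2`. -/
def IsL (W : WeierstrassCurve ℤ) (L : ℂ → ℂ) : Prop :=
  (∀ v : HeightOneSpectrum (𝓞 K), MinimalAt W v) ∧ Differentiable ℂ L ∧
    ∀ s : ℂ, 3 / 2 < s.re → HasProd (factor (K := K) W s) (L s)

/-- The rank conjecture for `W` over `K`: the equation is minimal, the `L`-function is entire, and its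
order of vanishing at `s = 1` is the rank of `W(K)`. -/
def RankConjecture (W : WeierstrassCurve ℤ) : Prop :=
  ∃ L : ℂ → ℂ, IsL K W L ∧ analyticOrderAt L 1 = rank K W

end

/-- The inert primes. -/
def Inert (q : ℕ) : Prop := q.Prime ∧ q % 8 = 5 ∧ (q % 7 = 3 ∨ q % 7 = 5 ∨ q % 7 = 6)

/-- The admissible primes. -/
def Admissible (p : ℕ) : Prop :=
  p.Prime ∧ p % 4 = 1 ∧ (Inert p ∨ p % 9 = 2 ∨ p % 9 = 4 ∨ p % 9 = 5 ∨ p % 9 = 7)

/-- The field `Ω`, the subfield of `ℂ` generated by the square roots of all the admissible primes, and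
by the numbers `ζ + ζ⁻¹`, `ζ` a root of unity of order a power of three (the latter generate the cyclotomic
`ℤ₃`-extension of `ℚ`). -/
noncomputable def Omega : IntermediateField ℚ ℂ :=
  IntermediateField.adjoin ℚ ({z : ℂ | ∃ p : ℕ, Admissible p ∧ z ^ 2 = (p : ℂ)} ∪
    {z : ℂ | ∃ (n : ℕ) (ζ : ℂ), ζ ^ 3 ^ n = 1 ∧ z = ζ + ζ⁻¹})

/-- The conclusion for the number field `F`: let `S` be the set of the squarefree positive integers `D`
whose square roots are contained in `F`.  `S` is finite, its elements are products of distinct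
admissible primes, the `L`-function `L` of `E` over `F` and the `L`-functions `M D` of the twists `E_D`
over `ℚ`, `D` in `S`, are entire, the orders of vanishing of the latter at `s = 1` are finite, and
`ord_{s=1} L = ∑_D ord_{s=1} (M D)`, `rank E(F) = ∑_D rank E_D(ℚ)`. -/
def Decomposition (F : IntermediateField ℚ ℂ) [NumberField F] : Prop :=
  ∃ (S : Finset ℕ) (L : ℂ → ℂ) (M : ℕ → ℂ → ℂ),
    (∀ D : ℕ, D ∈ S ↔ Squarefree D ∧ ∃ z ∈ F, z ^ 2 = (D : ℂ)) ∧
    (∀ D ∈ S, ∀ p : ℕ, p.Prime → p ∣ D → Admissible p) ∧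
    IsL F E L ∧ (∀ D ∈ S, IsL ℚ (twist (D : ℤ)) (M D) ∧ analyticOrderAt (M D) 1 ≠ ⊤) ∧
    analyticOrderAt L 1 = ∑ D ∈ S, analyticOrderAt (M D) 1 ∧
    rank F E = ∑ D ∈ S, rank ℚ (twist (D : ℤ))

lemma E_disc : E.Δ = -21952 := by
  unfold E WeierstrassCurve.Δ WeierstrassCurve.b₂ WeierstrassCurve.b₄ WeierstrassCurve.b₆
    WeierstrassCurve.b₈
  norm_num

lemma disc_mem {K : Type} [Field K] [NumberField K] (v : HeightOneSpectrum (𝓞 K)) :
    ((E.Δ : ℤ) : 𝓞 K) ∈ v.asIdeal ↔ ((14 : ℤ) : 𝓞 K) ∈ v.asIdeal := by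
  have h2 : ((E.Δ : ℤ) : 𝓞 K) = -(((14 : ℤ) : 𝓞 K) ^ 3 * 8) := by
    rw [E_disc]; push_cast; norm_num
  have h3 : ((14 : ℤ) : 𝓞 K) = 2 * 7 := by push_cast; norm_num
  rw [h2, neg_mem_iff]
  constructor
  · intro h
    rcases v.isPrime.mem_or_mem h with h | h
    · exact v.isPrime.mem_of_pow_mem 3 h
    · rw [show (8 : 𝓞 K) = 2 ^ 3 by norm_num] at h
      rw [h3]
      exact Ideal.mul_mem_right _ _ (v.isPrime.mem_of_pow_mem 3 h)
  · intro h
    exact Ideal.mul_mem_right _ _ (Ideal.pow_mem_of_mem _ h 3 (by norm_num))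

lemma factor_eq {K : Type} [Field K] [NumberField K] (s : ℂ) :
    factor (K := K) E s = Pool.Agent.Y682.XT.fE (K := K) s := by
  funext v
  have h1 : a E v = Pool.Agent.Y682.XT.av v := rfl
  unfold factor Pool.Agent.Y682.XT.fE
  rw [h1]
  simp only [disc_mem]

lemma WM_one : Pool.Agent.Y700.WM 1 = E := by
  unfold Pool.Agent.Y700.WM E
  norm_num

lemma minimal (F : Type) [Field F] [NumberField F] (v : HeightOneSpectrum (𝓞 F)) :
    MinimalAt E v := by
  have h1 := Pool.Agent.W2helper41.X.parts.mind 1 squarefree_one rfl (Nat.coprime_one_left 14) F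
    (fun p hp h => by
      exfalso
      have h3 : (p : ℤ) ≤ 1 := Int.le_of_dvd one_pos h
      have := hp.two_le
      omega) v
  rw [WM_one] at h1
  exact h1

/-- The `L`-function is unique. -/
lemma IsL.unique {K : Type} [Field K] [NumberField K] {W : WeierstrassCurve ℤ} {L M : ℂ → ℂ}
    (h : IsL K W L) (h' : IsL K W M) : L = M := by
  have h1 : AnalyticOnNhd ℂ L Set.univ := fun z _ => h.2.1.analyticAt z
  have h2 : AnalyticOnNhd ℂ M Set.univ := fun z _ => h'.2.1.analyticAt z
  refine h1.eq_of_eventuallyEq h2 (z₀ := 2) ?_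
  have h3 : {z : ℂ | 3 / 2 < z.re} ∈ nhds (2 : ℂ) := by
    refine (isOpen_lt continuous_const Complex.continuous_re).mem_nhds ?_
    show (3 / 2 : ℝ) < (2 : ℂ).re
    norm_num
  filter_upwards [h3] with z hz
  exact (h.2.2 z hz).unique (h'.2.2 z hz)

lemma conj_iff {K : Type} [Field K] [NumberField K] {W : WeierstrassCurve ℤ} {L : ℂ → ℂ}
    (h : IsL K W L) : RankConjecture K W ↔ analyticOrderAt L 1 = rank K W := by
  constructor
  · rintro ⟨M, hM, h1⟩
    rw [h.unique hM]
    exact h1
  · exact fun h1 => ⟨L, h, h1⟩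

lemma order_prod {ι : Type} (A : Finset ι) {G : ι → ℂ → ℂ} (hG : ∀ i ∈ A, Differentiable ℂ (G i))
    {P : ℂ → ℂ} (hP : Differentiable ℂ P) (h1 : P 1 ≠ 0) :
    analyticOrderAt (fun z => (∏ i ∈ A, G i z) * P z) 1 = ∑ i ∈ A, analyticOrderAt (G i) 1 := by
  induction A using Finset.induction_on with
  | empty =>
    rw [sum_empty, analyticOrderAt_eq_zero]
    right
    simpa using h1
  | insert i A hi ih =>
    have hd : Differentiable ℂ (fun z => (∏ i ∈ A, G i z) * P z) :=
      (Differentiable.fun_finsetProd fun j hj => hG j (mem_insert_of_mem hj)).mul hP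
    have hi' := hG i (mem_insert_self _ _)
    have h2 : (fun z => (∏ i ∈ insert i A, G i z) * P z) =
        G i * (fun z => (∏ i ∈ A, G i z) * P z) := by
      funext z
      rw [prod_insert hi]
      show _ = G i z * ((∏ i ∈ A, G i z) * P z)
      ring
    rw [h2, analyticOrderAt_mul (hi'.analyticAt 1) (hd.analyticAt 1), sum_insert hi,
      ih fun j hj => hG j (mem_insert_of_mem hj)]

open Pool.Agent.Y18.BSD (dd)

open Pool.Agent.W2helper41.V

lemma decomposition (F : IntermediateField ℚ ℂ) [NumberField F] (hF : F ≤ Omega) :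
    Decomposition F := by
  obtain ⟨A, n, hA, hFA⟩ := Pool.Agent.W2helper41.Q.le_OmC (C := Pool.Agent.W2helper41.Q.Adm) F hF
  obtain ⟨hfd, hodd⟩ := Pool.Agent.W2helper41.M.Lay_odd n
  have hnf : NumberField (Pool.Agent.W2helper41.M.Lay (n + 1)) :=
    { to_charZero := inferInstance, to_finiteDimensional := hfd }
  have hz : NeZero (3 ^ (n + 1)) := ⟨by positivity⟩
  obtain ⟨-, hM⟩ := hyp_adm n hA hodd
  have hAp : ∀ p ∈ A, p.Prime := fun p hp => (hA p hp).1
  have hP14 : ∀ p ∈ A, ¬ p ∣ 14 ∧ ¬ p ∣ 3 ^ (n + 1) ∧ p % 4 = 1 ∧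
      (Pool.Agent.W2helper41.X.Ine p ∨
        (Ideal.span {((p : ℕ) : 𝓞 (Pool.Agent.W2helper41.M.Lay (n + 1)))}).IsPrime) := by
    intro p hp
    exact (hM (p : ℤ) (mem_map_of_mem _ hp)).2.2 p (hAp p hp) dvd_rfl
  obtain ⟨G, P, hP, hP1, hG, hL⟩ := mainA Pool.Agent.W2helper41.Y.parts
    Pool.Agent.W2helper41.X.parts (3 ^ (n + 1))
    (Nat.prime_three.isPrimePow.pow (Nat.succ_ne_zero n)) (Nat.Coprime.pow_left _ (by norm_num))
    (Pool.Agent.W2helper41.M.Lay (n + 1)) (Pool.Agent.W2helper41.M.Lay_le (n + 1)) hodd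
    (Or.inl (dvd_pow_self 3 (Nat.succ_ne_zero n))) A hAp hP14 F (by
      rw [← Pool.Agent.W2helper41.Y.mq_nat]
      exact hFA)
  have hpf : ∀ T ⊆ A, (dd T).primeFactors = T := fun T hT =>
    Nat.primeFactors_prod fun p hp => hAp p (hT hp)
  have hsub : ∀ T ∈ TT A F, T ⊆ A := fun T hT => (mem_TT.1 hT).1
  have hinj : ∀ T ∈ TT A F, ∀ U ∈ TT A F, dd T = dd U → T = U := fun T hT U hU h =>
    dd_inj hAp (hsub T hT) (hsub U hU) h
  have hdT : ∀ T ⊆ A, Squarefree (dd T) ∧ dd T % 4 = 1 ∧ (dd T).Coprime 14 := by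
    intro T hT
    refine ⟨Pool.Agent.Y18.BSD.dd_sqfree fun q hq => hAp q (hT hq),
      dd_four fun p hp => (hP14 p (hT hp)).2.2.1, ?_⟩
    refine Nat.Coprime.prod_left fun p hp => ?_
    rw [Nat.Prime.coprime_iff_not_dvd (hAp p (hT hp))]
    exact (hP14 p (hT hp)).1
  refine ⟨(TT A F).image dd, fun z => (∏ T ∈ TT A F, G T z) * P z, fun D => G D.primeFactors,
    ?_, ?_, ⟨fun v => minimal F v, ?_, ?_⟩, ?_, ?_, ?_⟩
  · intro D
    constructor
    · intro hD
      obtain ⟨T, hT, rfl⟩ := mem_image.1 hD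
      exact ⟨(hdT T (hsub T hT)).1, (mem_TT.1 hT).2⟩
    · rintro ⟨hD, hz⟩
      obtain ⟨T, hT, h⟩ := (sqf_iff hAp F hFA hD).1 hz
      exact mem_image.2 ⟨T, hT, h⟩
  · intro D hD p hp hpD
    obtain ⟨T, hT, rfl⟩ := mem_image.1 hD
    have h1 : p ∈ (dd T).primeFactors :=
      Nat.mem_primeFactors.2 ⟨hp, hpD, (hdT T (hsub T hT)).1.ne_zero⟩
    rw [hpf T (hsub T hT)] at h1
    exact hA p (hsub T hT h1)
  · exact (Differentiable.fun_finsetProd fun T hT => (hG T (hsub T hT)).1).mul hP
  · intro s hs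
    rw [factor_eq]
    exact hL s hs
  · intro D hD
    obtain ⟨T, hT, rfl⟩ := mem_image.1 hD
    beta_reduce
    rw [hpf T (hsub T hT)]
    obtain ⟨h1, h2, h3⟩ := hG T (hsub T hT)
    obtain ⟨h4, h5, h6⟩ := hdT T (hsub T hT)
    refine ⟨⟨?_, h1, h3⟩, h2⟩
    exact Pool.Agent.W2helper41.X.parts.mind ((dd T : ℕ) : ℤ) (Int.squarefree_natCast.2 h4)
      (by omega) (by rw [Int.natAbs_natCast]; exact h6) ℚ
      (fun p hp _ => Pool.Agent.Y682.XF.prime_Q hp)
  · rw [order_prod (TT A F) (fun T hT => (hG T (hsub T hT)).1) hP hP1, sum_image hinj]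
    exact sum_congr rfl fun T hT => by beta_reduce; rw [hpf T (hsub T hT)]
  · have h1 : rank F E = ∑ T ∈ TT A F, Pool.Agent.Y682.XD.RR ℚ ((dd T : ℕ) : ℤ) := rank_TT F hA hFA
    rw [h1, sum_image hinj]
    refine sum_congr rfl fun T hT => ?_
    have h4 := (hdT T (hsub T hT)).2.1
    exact (Pool.Agent.Y682.XF.trans_D ℚ (D := ((dd T : ℕ) : ℤ)) (by omega)).1.symm

lemma of_twists (F : IntermediateField ℚ ℂ) [NumberField F] (hF : F ≤ Omega)
    (h : ∀ D : ℕ, Squarefree D → (∃ z ∈ F, z ^ 2 = (D : ℂ)) → RankConjecture ℚ (twist (D : ℤ))) :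
    RankConjecture F E := by
  obtain ⟨S, L, M, h1, -, h3, h4, h5, h6⟩ := decomposition F hF
  refine ⟨L, h3, ?_⟩
  rw [h5, h6, Nat.cast_sum]
  refine sum_congr rfl fun D hD => ?_
  obtain ⟨h7, h8⟩ := (h1 D).1 hD
  exact (conj_iff (h4 D hD).1).1 (h D h7 h8)

/-- square roots in a quadratic field -/
lemma roots {D D' : ℕ} (hD : Squarefree D) (hD' : Squarefree D') {z : ℂ} (hz : z ^ 2 = (D : ℂ))
    (h : ∃ w ∈ IntermediateField.adjoin ℚ {z}, w ^ 2 = (D' : ℂ)) : D' = 1 ∨ D' = D := by
  obtain ⟨w, hw, hw2⟩ := h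
  have hrat : ∀ {x : ℂ} {a b : ℕ}, Squarefree a → Squarefree b →
      x ∈ (⊥ : IntermediateField ℚ ℂ) → x ^ 2 = (a : ℂ) * (b : ℂ) → a = b := by
    intro x a b ha hb hx hx2
    obtain ⟨g, hg⟩ := IntermediateField.mem_bot.1 hx
    have hgz : (g : ℂ) = x := hg
    refine sqf_eq ha hb (g := g) ?_
    have h2 : ((g ^ 2 : ℚ) : ℂ) = ((a : ℚ) * (b : ℚ) : ℚ) := by
      push_cast
      rw [hgz, hx2]
    exact_mod_cast h2
  by_cases hz0 : z ∈ (⊥ : IntermediateField ℚ ℂ)
  · have h1 : IntermediateField.adjoin ℚ {z} = ⊥ := by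
      rw [IntermediateField.adjoin_simple_eq_bot_iff]
      exact hz0
    rw [h1] at hw
    left
    exact hrat hD' squarefree_one hw (by rw [hw2, Nat.cast_one, mul_one])
  · rw [← bot_sup_eq (IntermediateField.adjoin ℚ {z})] at hw
    rcases root_quad ⊥ hz0 (by rw [hz]; exact IntermediateField.natCast_mem _ _) hw
      (by rw [hw2]; exact IntermediateField.natCast_mem _ _) with h | h
    · left
      exact hrat hD' squarefree_one h (by rw [hw2, Nat.cast_one, mul_one])
    · right
      exact hrat hD' hD h (by rw [mul_pow, hw2, hz])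

lemma twists_of (h : ∀ (F : IntermediateField ℚ ℂ) [NumberField F], F ≤ Omega → RankConjecture F E)
    {D : ℕ} (hD : Squarefree D) (hDp : ∀ p : ℕ, p.Prime → p ∣ D → Admissible p) :
    RankConjecture ℚ (twist (D : ℤ)) := by
  -- a square root
  have hprod : ∀ T : Finset ℕ, (∀ p ∈ T, Admissible p) →
      ∃ z ∈ Omega, z ^ 2 = ((∏ p ∈ T, p : ℕ) : ℂ) := by
    intro T
    induction T using Finset.induction_on with
    | empty =>
      intro _
      exact ⟨1, one_mem _, by simp⟩
    | insert p T hp ih =>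
      intro hT
      obtain ⟨z, hz, hz2⟩ := ih fun q hq => hT q (mem_insert_of_mem hq)
      obtain ⟨w, hw⟩ : ∃ w : ℂ, w ^ 2 = (p : ℂ) := IsAlgClosed.exists_pow_nat_eq _ (by norm_num)
      have hwO : w ∈ Omega :=
        IntermediateField.subset_adjoin ℚ _ (Or.inl ⟨p, hT p (mem_insert_self _ _), hw⟩)
      refine ⟨w * z, mul_mem hwO hz, ?_⟩
      rw [mul_pow, hw, hz2, prod_insert hp, Nat.cast_mul]
  obtain ⟨z, hz, hz2⟩ := hprod D.primeFactors fun p hp =>
    hDp p (Nat.prime_of_mem_primeFactors hp) (Nat.dvd_of_mem_primeFactors hp)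
  rw [Nat.prod_primeFactors_of_squarefree hD] at hz2
  -- the rational numbers
  have hbot : ∀ (F : IntermediateField ℚ ℂ) [NumberField F], F ≤ Omega →
      ∀ D : ℕ, Squarefree D → (∃ z ∈ F, z ^ 2 = (D : ℂ)) →
      (∀ D' : ℕ, Squarefree D' → (∃ w ∈ F, w ^ 2 = (D' : ℂ)) → D' = 1 ∨ D' = D) →
      (D ≠ 1 → RankConjecture ℚ (twist ((1 : ℕ) : ℤ))) → RankConjecture ℚ (twist (D : ℤ)) := by
    intro F _ hF D hD hDF hD' h1
    obtain ⟨S, L, M, a1, -, a3, a4, a5, a6⟩ := decomposition F hF
    have a7 := (conj_iff a3).1 (h F hF)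
    have hDS : D ∈ S := (a1 D).2 ⟨hD, hDF⟩
    have h1S : 1 ∈ S := (a1 1).2 ⟨squarefree_one, 1, one_mem _, by simp⟩
    rw [conj_iff (a4 D hDS).1]
    rw [a5, a6] at a7
    by_cases hD1 : D = 1
    · have hS : S = {D} := by
        ext D'
        rw [mem_singleton]
        constructor
        · intro hm
          obtain ⟨b1, b2⟩ := (a1 D').1 hm
          rcases hD' D' b1 b2 with h | h
          · rw [h, hD1]
          · exact h
        · rintro rfl
          exact hDS
      rw [hS, sum_singleton, sum_singleton] at a7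
      exact a7
    · have hS : S = insert D {1} := by
        ext D'
        rw [mem_insert, mem_singleton]
        constructor
        · intro hm
          obtain ⟨b1, b2⟩ := (a1 D').1 hm
          exact (hD' D' b1 b2).symm
        · rintro (rfl | rfl)
          · exact hDS
          · exact h1S
      have hne : D ∉ ({1} : Finset ℕ) := by rw [mem_singleton]; exact hD1
      rw [hS, sum_insert hne, sum_insert hne, sum_singleton, sum_singleton] at a7
      have h2 := (conj_iff (a4 1 h1S).1).1 (h1 hD1)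
      rw [h2, Nat.cast_add] at a7
      exact ENat.add_left_injective_of_ne_top (ENat.coe_ne_top _) a7
  have hfd0 : FiniteDimensional ℚ (⊥ : IntermediateField ℚ ℂ) := inferInstance
  have hnf0 : NumberField (⊥ : IntermediateField ℚ ℂ) :=
    { to_charZero := inferInstance, to_finiteDimensional := hfd0 }
  have hone : RankConjecture ℚ (twist ((1 : ℕ) : ℤ)) := by
    refine hbot ⊥ bot_le 1 squarefree_one ⟨1, one_mem _, by simp⟩ ?_ (fun h => absurd rfl h)
    intro D' hD' hw
    refine roots squarefree_one hD' (z := 1) (by simp) ?_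
    obtain ⟨w, hw1, hw2⟩ := hw
    exact ⟨w, bot_le (a := IntermediateField.adjoin ℚ {(1 : ℂ)}) hw1, hw2⟩
  -- the quadratic field
  have hfd : FiniteDimensional ℚ (IntermediateField.adjoin ℚ {z} : IntermediateField ℚ ℂ) :=
    IntermediateField.adjoin.finiteDimensional ⟨Polynomial.X ^ 2 - Polynomial.C (D : ℚ),
      Polynomial.monic_X_pow_sub_C _ (by norm_num), by
        rw [Polynomial.eval₂_sub, Polynomial.eval₂_pow, Polynomial.eval₂_X,
          Polynomial.eval₂_C, hz2, map_natCast, sub_self]⟩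
  have hnf : NumberField (IntermediateField.adjoin ℚ {z} : IntermediateField ℚ ℂ) :=
    { to_charZero := inferInstance, to_finiteDimensional := hfd }
  exact hbot _ ((IntermediateField.adjoin_simple_le_iff).2 hz) D hD
    ⟨z, IntermediateField.mem_adjoin_simple_self ℚ z, hz2⟩
    (fun D' hD' hw => roots hD hD' hz2 hw) (fun _ => hone)

/-- **Main theorem.**

For every number field `F` contained in `Ω`, the `L`-function of `E` over `F` is entire,
`ord_{s=1} L(E/F, s) = ∑_D ord_{s=1} L(E_D/ℚ, s)` and `rank E(F) = ∑_D rank E_D(ℚ)`, the sums over the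
squarefree positive integers `D` whose square roots are contained in `F`.  So if the rank conjecture is
true for these `E_D` over `ℚ`, then it is true for `E` over `F`.

The rank conjecture is true for `E` over all the number fields contained in `Ω` if and only if it is true
for the twist `E_D` over `ℚ` for all the squarefree positive integers `D` whose prime divisors are
admissible. -/
theorem result :
    (∀ (F : IntermediateField ℚ ℂ) [NumberField F], F ≤ Omega → Decomposition F ∧
      ((∀ D : ℕ, Squarefree D → (∃ z ∈ F, z ^ 2 = (D : ℂ)) → RankConjecture ℚ (twist (D : ℤ))) →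
        RankConjecture F E)) ∧
    ((∀ (F : IntermediateField ℚ ℂ) [NumberField F], F ≤ Omega → RankConjecture F E) ↔
      ∀ D : ℕ, Squarefree D → (∀ p : ℕ, p.Prime → p ∣ D → Admissible p) →
        RankConjecture ℚ (twist (D : ℤ))) := by
  refine ⟨fun F _ hF => ⟨decomposition F hF, of_twists F hF⟩, fun h D hD hDp => twists_of h hD hDp,
    fun h F _ hF => of_twists F hF fun D hD hz => h D hD ?_⟩
  obtain ⟨S, L, M, h1, h2, -⟩ := decomposition F hF
  exact h2 D ((h1 D).2 ⟨hD, hz⟩)

end Pool.Agent.Results.MP_32c55d_nt.ReductionToTwistsOverOmega
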